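import Mathlib

/-!
# Shock-free eternal flows in vacuum with a physical singularity

Definitions used by the hand-in for problem `MP_f907ca_an`.
-/

open scoped ContDiff Topology

noncomputable section

namespace Pool.Agent.Lib.MP_f907ca_an

/-- Physical space `ℝ^d` with its Euclidean norm. -/
abbrev Space (d : ℕ) : Type := EuclideanSpace ℝ (Fin d)

/-- The data of a flow for all times `t : ℝ`: the region `Ω t` occupied by the gas, the density
`ρ t x` and the velocity `u t x`. -/
structure Flow (d : ℕ) where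
  Ω : ℝ → Set (Space d)
  ρ : ℝ → Space d → ℝ
  u : ℝ → Space d → Space d

variable {d : ℕ}

/-- The time derivative `∂f/∂t` at `(t, x)`. -/
def dt (f : ℝ → Space d → ℝ) (t : ℝ) (x : Space d) : ℝ := deriv (fun s : ℝ => f s x) t

/-- The space derivative `∂f/∂x_i` at `(t, x)`. -/
def dx (i : Fin d) (f : ℝ → Space d → ℝ) (t : ℝ) (x : Space d) : ℝ :=
  deriv (fun h : ℝ => f t (x + h • EuclideanSpace.single i (1 : ℝ))) 0

/-- The space gradient at `(t, x)`. -/
def grad (f : ℝ → Space d → ℝ) (t : ℝ) (x : Space d) : Space d :=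
  WithLp.toLp 2 (fun i => dx i f t x)

/-- The domain `Ω ⊆ ℝ × ℝ^d` of the flow in space-time. -/
def domain (F : Flow d) : Set (ℝ × Space d) := {p | p.2 ∈ F.Ω p.1}

/-- The pressure `p = A ρ^γ`. -/
def pressure (A γ : ℝ) (F : Flow d) (t : ℝ) (x : Space d) : ℝ := A * F.ρ t x ^ γ

/-- The square of the sound speed, `c² = p'(ρ) = γ A ρ^(γ-1)`. -/
def soundSq (A γ : ℝ) (F : Flow d) (t : ℝ) (x : Space d) : ℝ := γ * A * F.ρ t x ^ (γ - 1)

/-- A shock-free eternal flow: for every `t` the gas occupies a nonempty bounded open set, with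
`ρ > 0` inside and `ρ = 0` outside; mass and energy are finite; `(ρ, u)` is a `C¹` solution of the
isentropic Euler system in the (open) space-time domain. -/
structure IsEternal (A γ : ℝ) (F : Flow d) : Prop where
  isOpen : ∀ t, IsOpen (F.Ω t)
  nonempty : ∀ t, (F.Ω t).Nonempty
  bounded : ∀ t, Bornology.IsBounded (F.Ω t)
  isOpen_domain : IsOpen (domain F)
  density_pos : ∀ t, ∀ x ∈ F.Ω t, 0 < F.ρ t x
  density_zero : ∀ t, ∀ x ∉ F.Ω t, F.ρ t x = 0
  mass_finite : ∀ t, MeasureTheory.Integrable (F.ρ t)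
  energy_finite : ∀ t, MeasureTheory.Integrable
    (fun x => F.ρ t x * ‖F.u t x‖ ^ 2 / 2 + pressure A γ F t x / (γ - 1))
  density_C1 : ContDiffOn ℝ 1 (fun p : ℝ × Space d => F.ρ p.1 p.2) (domain F)
  velocity_C1 : ContDiffOn ℝ 1 (fun p : ℝ × Space d => F.u p.1 p.2) (domain F)
  mass_eq : ∀ t, ∀ x ∈ F.Ω t,
    dt F.ρ t x + ∑ i, dx i (fun s z => F.ρ s z * F.u s z i) t x = 0
  momentum_eq : ∀ t, ∀ x ∈ F.Ω t, ∀ i,
    dt (fun s z => F.ρ s z * F.u s z i) t x
      + ∑ j, dx j (fun s z => F.ρ s z * F.u s z i * F.u s z j) t x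
      + dx i (pressure A γ F) t x = 0

/-- `ψ` is a defining function of the front: it is `C^∞` in space-time, positive exactly at the
points of the gas, and its space gradient does not vanish on the front `Γ(t) = ∂Ω(t)`. In
particular `Γ(t)` is a smooth hypersurface. -/
structure IsDefining (F : Flow d) (ψ : ℝ → Space d → ℝ) : Prop where
  smooth : ContDiff ℝ ∞ (fun p : ℝ × Space d => ψ p.1 p.2)
  mem_iff : ∀ t x, x ∈ F.Ω t ↔ 0 < ψ t x
  grad_ne : ∀ t, ∀ x ∈ frontier (F.Ω t), grad ψ t x ≠ 0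

/-- The outer unit normal `ν = -∇ψ/|∇ψ|` of `{ψ(t,·) > 0}`. -/
def normal (ψ : ℝ → Space d → ℝ) (t : ℝ) (x : Space d) : Space d :=
  -(‖grad ψ t x‖⁻¹ • grad ψ t x)

/-- The front conditions: the velocity is smooth across the front, and the front moves with
normal velocity `u·ν` (the normal velocity of the moving surface `ψ = 0` is `ψ_t/|∇ψ|`). -/
structure HasKinematicFront (F : Flow d) (ψ : ℝ → Space d → ℝ) : Prop where
  velocity_smooth : ∀ t, ∀ x ∈ frontier (F.Ω t),
    ContDiffAt ℝ ∞ (fun p : ℝ × Space d => F.u p.1 p.2) (t, x)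
  normal_velocity : ∀ t, ∀ x ∈ frontier (F.Ω t),
    dt ψ t x / ‖grad ψ t x‖ = ∑ i, F.u t x i * normal ψ t x i

/-- The flow has a physical singularity with front acceleration `g`: `c²` (extended by `0` to the
vacuum) is Lipschitz, the one-sided normal derivative of `c²` at the front is `-(γ-1)g`, `g > 0`
at every point of the (nonempty) front at every time, and the boundary particles satisfy
`d/dt u(X(t),t) = ∂_t u + (u·∇)u = g ν`. -/
structure HasPhysicalSingularity (A γ : ℝ) (F : Flow d) (ψ g : ℝ → Space d → ℝ) : Prop where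
  lipschitz_space : ∀ t, ∃ K, LipschitzWith K (soundSq A γ F t)
  lipschitz_spacetime : LocallyLipschitz (fun p : ℝ × Space d => soundSq A γ F p.1 p.2)
  normal_deriv : ∀ t, ∀ x ∈ frontier (F.Ω t),
    HasDerivWithinAt (fun h : ℝ => soundSq A γ F t (x + h • normal ψ t x))
      (-((γ - 1) * g t x)) (Set.Iic 0) 0
  front_nonempty : ∀ t, (frontier (F.Ω t)).Nonempty
  pos : ∀ t, ∀ x ∈ frontier (F.Ω t), 0 < g t x
  acceleration : ∀ t, ∀ x ∈ frontier (F.Ω t), ∀ i,
    dt (fun s z => F.u s z i) t x + ∑ j, F.u t x j * dx j (fun s z => F.u s z i) t x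
      = g t x * normal ψ t x i

/-- The rescaled region `t⁻¹ Ω(t)`. -/
def rescaled (F : Flow d) (t : ℝ) : Set (Space d) := (fun x => t⁻¹ • x) '' F.Ω t

/-- Along the filter `l` (either `t → +∞` or `t → -∞`) the region `Ω(t)` behaves asymptotically as
`t O`: the closure of `t⁻¹ Ω(t)` tends to the closure of `O` in Hausdorff distance. -/
def BehavesLike (F : Flow d) (O : Set (Space d)) (l : Filter ℝ) : Prop :=
  Filter.Tendsto (fun t => Metric.hausdorffEDist (closure (rescaled F t)) (closure O)) l (𝓝 0)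

end Pool.Agent.Lib.MP_f907ca_an
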