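import Mathlib

open Set Filter Topology
open scoped NNReal ContDiff

noncomputable section

namespace Pool.Agent.Lib.MP_f907ca_an

/-- Global existence for `y'' = G y` with `G` bounded and globally Lipschitz. -/
theorem exists_local_sol {E : Type*} [NormedAddCommGroup E] [NormedSpace ℝ E] [CompleteSpace E]
    (G : E → E) (K L : ℝ≥0) (hK : LipschitzWith K G) (hL : ∀ y, ‖G y‖ ≤ L) (y₀ w₀ : E)
    (T : ℝ) (hT : 0 < T) :
    ∃ y w : ℝ → E, y 0 = y₀ ∧ w 0 = w₀ ∧
      ∀ t ∈ Ioo (-T) T, HasDerivAt y (w t) t ∧ HasDerivAt w (G (y t)) t := by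
  set T' : ℝ≥0 := ⟨T, hT.le⟩ with hT'
  set M : ℝ≥0 := max T' 1 with hM
  have h0 : (0 : ℝ) ∈ Icc (-T) T := ⟨by linarith, hT.le⟩
  have hGc : Continuous G := hK.continuous
  have hPL : IsPicardLindelof (E := E × E)
      (fun t p => ((-t) • G (p.1 + t • p.2), G (p.1 + t • p.2))) (tmin := -T) (tmax := T)
      ⟨0, h0⟩ (y₀, w₀) (M * L * T') 0 (M * L) (M * (K * (1 + T'))) := by
    refine ⟨?_, ?_, ?_, ?_⟩
    · intro t ht
      have habs : |t| ≤ T := abs_le.2 ht
      have h1 : LipschitzWith (K * (1 + T')) (fun p : E × E => G (p.1 + t • p.2)) := by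
        have hin : LipschitzWith (1 + T') (fun p : E × E => p.1 + t • p.2) := by
          apply LipschitzWith.of_dist_le_mul
          intro p q
          have e1 : (p.1 + t • p.2) - (q.1 + t • q.2) = (p.1 - q.1) + t • (p.2 - q.2) := by
            rw [smul_sub]; abel
          rw [dist_eq_norm, e1]
          have hp1 : ‖p.1 - q.1‖ ≤ dist p q := by
            rw [← dist_eq_norm]; exact le_max_left _ _
          have hp2 : ‖p.2 - q.2‖ ≤ dist p q := by
            rw [← dist_eq_norm]; exact le_max_right _ _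
          calc ‖(p.1 - q.1) + t • (p.2 - q.2)‖ ≤ ‖p.1 - q.1‖ + ‖t • (p.2 - q.2)‖ := norm_add_le _ _
            _ = ‖p.1 - q.1‖ + |t| * ‖p.2 - q.2‖ := by rw [norm_smul, Real.norm_eq_abs]
            _ ≤ dist p q + T * dist p q := by
                gcongr
            _ = ((1 + T' : ℝ≥0) : ℝ) * dist p q := by
                push_cast
                rw [show ((T' : ℝ≥0) : ℝ) = T from rfl]; ring
        exact hK.comp hin
      have h2 : LipschitzWith (M * (K * (1 + T')))
          (fun p : E × E => (-t) • G (p.1 + t • p.2)) := by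
        apply LipschitzWith.of_dist_le_mul
        intro p q
        rw [dist_eq_norm, ← smul_sub, norm_smul, Real.norm_eq_abs, abs_neg, ← dist_eq_norm]
        have := h1.dist_le_mul p q
        have hMt : |t| ≤ M := by
          rw [hM]; push_cast
          exact habs.trans (le_max_left _ _)
        calc |t| * dist (G (p.1 + t • p.2)) (G (q.1 + t • q.2))
            ≤ (M : ℝ) * (((K * (1 + T') : ℝ≥0) : ℝ) * dist p q) := by
              gcongr
          _ = _ := by push_cast; ring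
      have h3 : LipschitzWith (M * (K * (1 + T')))
          (fun p : E × E => G (p.1 + t • p.2)) := by
        refine h1.weaken ?_
        have : (1 : ℝ≥0) ≤ M := le_max_right _ _
        calc K * (1 + T') = 1 * (K * (1 + T')) := by ring
          _ ≤ M * (K * (1 + T')) := by gcongr
      have := (h2.prodMk h3)
      rw [max_self] at this
      exact this.lipschitzOnWith
    · intro x _
      apply Continuous.continuousOn
      have : Continuous (fun t : ℝ => G (x.1 + t • x.2)) :=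
        hGc.comp (by fun_prop)
      exact ((continuous_neg).smul this).prodMk this
    · intro t ht x _
      have habs : |t| ≤ T := abs_le.2 ht
      have hMt : |t| ≤ M := by
        rw [hM]; push_cast
        exact habs.trans (le_max_left _ _)
      have hM1 : (1 : ℝ) ≤ M := by
        rw [hM]; push_cast; exact le_max_right _ _
      rw [Prod.norm_def]
      apply max_le
      · simp only
        rw [norm_smul, Real.norm_eq_abs, abs_neg]
        push_cast
        exact mul_le_mul hMt (hL _) (norm_nonneg _) (by positivity)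
      · simp only
        push_cast
        calc ‖G (x.1 + t • x.2)‖ ≤ 1 * L := by rw [one_mul]; exact hL _
          _ ≤ M * L := by gcongr
    · have : (⟨T, hT.le⟩ : ℝ≥0) = T' := rfl
      simp only [sub_zero, zero_sub, neg_neg, max_self, NNReal.coe_zero, NNReal.coe_mul]
      exact le_rfl
  obtain ⟨α, hα0, hα⟩ := hPL.exists_eq_forall_mem_Icc_hasDerivWithinAt₀
  refine ⟨fun t => (α t).1 + t • (α t).2, fun t => (α t).2, ?_, ?_, ?_⟩
  · have : α 0 = (y₀, w₀) := hα0
    simp [this]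
  · have : α 0 = (y₀, w₀) := hα0
    simp [this]
  · intro t ht
    have hd := (hα t (Ioo_subset_Icc_self ht)).hasDerivAt (Icc_mem_nhds ht.1 ht.2)
    have h1 : HasDerivAt (fun s => (α s).1) ((-t) • G ((α t).1 + t • (α t).2)) t := hd.fst
    have h2 : HasDerivAt (fun s => (α s).2) (G ((α t).1 + t • (α t).2)) t := hd.snd
    refine ⟨?_, h2⟩
    have h3 := h1.add ((hasDerivAt_id t).smul h2)
    refine h3.congr_deriv ?_
    simp

theorem exists_global_sol {E : Type*} [NormedAddCommGroup E] [NormedSpace ℝ E] [CompleteSpace E]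
    (G : E → E) (K L : ℝ≥0) (hK : LipschitzWith K G) (hL : ∀ y, ‖G y‖ ≤ L) (y₀ w₀ : E) :
    ∃ y w : ℝ → E, y 0 = y₀ ∧ w 0 = w₀ ∧
      ∀ t, HasDerivAt y (w t) t ∧ HasDerivAt w (G (y t)) t := by
  have hex : ∀ n : ℕ, ∃ yw : (ℝ → E) × (ℝ → E), yw.1 0 = y₀ ∧ yw.2 0 = w₀ ∧
      ∀ t ∈ Ioo (-((n : ℝ) + 1)) ((n : ℝ) + 1), HasDerivAt yw.1 (yw.2 t) t ∧
        HasDerivAt yw.2 (G (yw.1 t)) t := by
    intro n
    obtain ⟨y, w, h1, h2, h3⟩ := exists_local_sol G K L hK hL y₀ w₀ ((n : ℝ) + 1) (by positivity)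
    exact ⟨(y, w), h1, h2, h3⟩
  choose f hf1 hf2 hf3 using hex
  have hlip : LipschitzWith (max 1 K) (fun p : E × E => (p.2, G p.1)) := by
    have h1 : LipschitzWith 1 (fun p : E × E => p.2) := LipschitzWith.prod_snd
    have h2 : LipschitzWith K (fun p : E × E => G p.1) := by
      have := hK.comp (LipschitzWith.prod_fst (α := E) (β := E))
      rw [mul_one] at this
      exact this
    exact h1.prodMk h2
  -- agreement
  have hagree : ∀ n m : ℕ, n ≤ m → ∀ t ∈ Ioo (-((n : ℝ) + 1)) ((n : ℝ) + 1),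
      (f n).1 t = (f m).1 t ∧ (f n).2 t = (f m).2 t := by
    intro n m hnm t ht
    have hsub : Ioo (-((n : ℝ) + 1)) ((n : ℝ) + 1) ⊆ Ioo (-((m : ℝ) + 1)) ((m : ℝ) + 1) := by
      have : (n : ℝ) ≤ m := by exact_mod_cast hnm
      apply Ioo_subset_Ioo <;> linarith
    have := ODE_solution_unique_of_mem_Ioo (E := E × E)
      (v := fun _ p => (p.2, G p.1)) (s := fun _ => univ) (K := max 1 K)
      (f := fun t => ((f n).1 t, (f n).2 t)) (g := fun t => ((f m).1 t, (f m).2 t))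
      (a := -((n : ℝ) + 1)) (b := (n : ℝ) + 1) (t₀ := 0)
      (fun t _ => hlip.lipschitzOnWith) ⟨by linarith [n.cast_nonneg (α := ℝ)], by positivity⟩
      (fun t ht => ⟨(hf3 n t ht).1.prodMk (hf3 n t ht).2, mem_univ _⟩)
      (fun t ht => ⟨(hf3 m t (hsub ht)).1.prodMk (hf3 m t (hsub ht)).2, mem_univ _⟩)
      (by simp [hf1, hf2]) ht
    simpa using this
  let N : ℝ → ℕ := fun t => ⌈|t|⌉₊
  have hN : ∀ t, t ∈ Ioo (-((N t : ℝ) + 1)) ((N t : ℝ) + 1) := by
    intro t
    have h1 : |t| ≤ (N t : ℝ) := Nat.le_ceil _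
    have h2 := abs_le.1 h1
    constructor <;> linarith [h2.1, h2.2]
  have hval : ∀ m : ℕ, ∀ t ∈ Ioo (-((m : ℝ) + 1)) ((m : ℝ) + 1),
      (f (N t)).1 t = (f m).1 t ∧ (f (N t)).2 t = (f m).2 t := by
    intro m t ht
    rcases le_total (N t) m with h | h
    · exact hagree _ _ h t (hN t)
    · have := hagree _ _ h t ht
      exact ⟨this.1.symm, this.2.symm⟩
  refine ⟨fun t => (f (N t)).1 t, fun t => (f (N t)).2 t, ?_, ?_, ?_⟩
  · exact hf1 _
  · exact hf2 _
  · intro t
    have hmem : t ∈ Ioo (-((N t : ℝ) + 1)) ((N t : ℝ) + 1) := hN t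
    have hnhds : Ioo (-((N t : ℝ) + 1)) ((N t : ℝ) + 1) ∈ 𝓝 t := Ioo_mem_nhds hmem.1 hmem.2
    have he1 : (fun s => (f (N s)).1 s) =ᶠ[𝓝 t] (f (N t)).1 := by
      filter_upwards [hnhds] with s hs using (hval _ s hs).1
    have he2 : (fun s => (f (N s)).2 s) =ᶠ[𝓝 t] (f (N t)).2 := by
      filter_upwards [hnhds] with s hs using (hval _ s hs).2
    exact ⟨(hf3 _ t hmem).1.congr_of_eventuallyEq he1, (hf3 _ t hmem).2.congr_of_eventuallyEq he2⟩

/-- Uniqueness for `y'' = G y`. -/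
theorem sol_unique {E : Type*} [NormedAddCommGroup E] [NormedSpace ℝ E]
    (G : E → E) (K : ℝ≥0) (hK : LipschitzWith K G) {y w y' w' : ℝ → E}
    (h : ∀ t, HasDerivAt y (w t) t ∧ HasDerivAt w (G (y t)) t)
    (h' : ∀ t, HasDerivAt y' (w' t) t ∧ HasDerivAt w' (G (y' t)) t)
    (h0 : y 0 = y' 0) (h0' : w 0 = w' 0) : y = y' ∧ w = w' := by
  have hlip : LipschitzWith (max 1 K) (fun p : E × E => (p.2, G p.1)) := by
    have h1 : LipschitzWith 1 (fun p : E × E => p.2) := LipschitzWith.prod_snd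
    have h2 : LipschitzWith K (fun p : E × E => G p.1) := by
      have := hK.comp (LipschitzWith.prod_fst (α := E) (β := E))
      rw [mul_one] at this
      exact this
    exact h1.prodMk h2
  have := ODE_solution_unique_univ (E := E × E)
      (v := fun _ p => (p.2, G p.1)) (s := fun _ => univ) (K := max 1 K)
      (f := fun t => (y t, w t)) (g := fun t => (y' t, w' t)) (t₀ := 0)
      (fun t => hlip.lipschitzOnWith)
      (fun t => ⟨(h t).1.prodMk (h t).2, mem_univ _⟩)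
      (fun t => ⟨(h' t).1.prodMk (h' t).2, mem_univ _⟩)
      (by simp [h0, h0'])
  constructor
  · funext t; exact (Prod.ext_iff.1 (congrFun this t)).1
  · funext t; exact (Prod.ext_iff.1 (congrFun this t)).2

/-- comparison of increments from comparison of derivatives -/
theorem incr_le {f f' g g' : ℝ → ℝ} {a b : ℝ} (hab : a ≤ b)
    (hf : ∀ t, HasDerivAt f (f' t) t) (hg : ∀ t, HasDerivAt g (g' t) t)
    (h : ∀ t ∈ Ioo a b, f' t ≤ g' t) : f b - f a ≤ g b - g a := by
  have hd : ∀ t, HasDerivAt (fun s => g s - f s) (g' t - f' t) t := fun t => (hg t).sub (hf t)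
  have hmono : MonotoneOn (fun s => g s - f s) (Icc a b) := by
    apply monotoneOn_of_deriv_nonneg (convex_Icc a b)
    · exact fun t _ => (hd t).continuousAt.continuousWithinAt
    · exact fun t _ => (hd t).differentiableAt.differentiableWithinAt
    · intro t ht
      rw [interior_Icc] at ht
      rw [(hd t).deriv]
      linarith [h t ht]
  have := hmono (left_mem_Icc.2 hab) (right_mem_Icc.2 hab) hab
  simp only at this
  linarith

theorem incr_lt {f f' g g' : ℝ → ℝ} {a b : ℝ} (hab : a < b)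
    (hf : ∀ t, HasDerivAt f (f' t) t) (hg : ∀ t, HasDerivAt g (g' t) t)
    (h : ∀ t ∈ Ioo a b, f' t < g' t) : f b - f a < g b - g a := by
  have hd : ∀ t, HasDerivAt (fun s => g s - f s) (g' t - f' t) t := fun t => (hg t).sub (hf t)
  have hmono : StrictMonoOn (fun s => g s - f s) (Icc a b) := by
    apply strictMonoOn_of_deriv_pos (convex_Icc a b)
    · exact fun t _ => (hd t).continuousAt.continuousWithinAt
    · intro t ht
      rw [interior_Icc] at ht
      rw [(hd t).deriv]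
      linarith [h t ht]
  have := hmono (left_mem_Icc.2 hab.le) (right_mem_Icc.2 hab.le) hab
  simp only at this
  linarith

/-- clamped logarithm -/
def ell (s : ℝ) : ℝ := Real.log (max s (1/2))

theorem ell_lip (s t : ℝ) : |ell s - ell t| ≤ 2 * |s - t| := by
  have key : ∀ a b : ℝ, 1/2 ≤ a → 1/2 ≤ b → Real.log a - Real.log b ≤ 2 * |a - b| := by
    intro a b ha hb
    have ha0 : 0 < a := by linarith
    have hb0 : 0 < b := by linarith
    rw [← Real.log_div ha0.ne' hb0.ne']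
    have h1 := Real.log_le_sub_one_of_pos (div_pos ha0 hb0)
    have h2 : a / b - 1 = (a - b) / b := by field_simp
    rw [h2] at h1
    refine h1.trans ?_
    rw [div_le_iff₀ hb0]
    have h3 := le_abs_self (a - b)
    have h4 := abs_nonneg (a - b)
    nlinarith
  have hs : (1:ℝ)/2 ≤ max s (1/2) := le_max_right _ _
  have ht : (1:ℝ)/2 ≤ max t (1/2) := le_max_right _ _
  have hm : |max s (1/2) - max t (1/2)| ≤ |s - t| := abs_max_sub_max_le_abs _ _ _
  rw [abs_le]
  constructor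
  · have := key _ _ ht hs
    rw [abs_sub_comm] at this
    unfold ell; linarith
  · have := key _ _ hs ht
    unfold ell; linarith

theorem ell_lower (s : ℝ) : -Real.log 2 ≤ ell s := by
  unfold ell
  have : -Real.log 2 = Real.log (1/2) := by
    rw [one_div, Real.log_inv]
  rw [this]
  exact Real.log_le_log (by norm_num) (le_max_right _ _)

theorem ell_upper {s M : ℝ} (hs : s ≤ M) (hM : 1/2 ≤ M) : ell s ≤ Real.log M := by
  unfold ell
  exact Real.log_le_log (lt_of_lt_of_le (by norm_num) (le_max_right _ _)) (max_le hs hM)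

theorem ell_eq {s : ℝ} (hs : 1/2 ≤ s) : ell s = Real.log s := by
  unfold ell
  rw [max_eq_left hs]

/-- The (clamped) force. -/
def G {d : ℕ} (γ : ℝ) (y : Fin d → ℝ) : Fin d → ℝ :=
  fun i => Real.exp (-((γ - 1) * ∑ j, ell (y j)) - ell (y i))

theorem G_pos {d : ℕ} (γ : ℝ) (y : Fin d → ℝ) (i : Fin d) : 0 < G γ y i := Real.exp_pos _

theorem G_le {d : ℕ} {γ : ℝ} (hγ : 1 < γ) (y : Fin d → ℝ) (i : Fin d) :
    G γ y i ≤ Real.exp (((γ - 1) * d + 1) * Real.log 2) := by
  unfold G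
  apply Real.exp_le_exp.2
  have h1 : -((d : ℝ) * Real.log 2) ≤ ∑ j, ell (y j) := by
    have : ∑ _j : Fin d, (-Real.log 2) ≤ ∑ j, ell (y j) :=
      Finset.sum_le_sum fun j _ => ell_lower _
    simpa using this
  have h2 := ell_lower (y i)
  have h3 : 0 ≤ (γ - 1) * (∑ j, ell (y j) + (d : ℝ) * Real.log 2) :=
    mul_nonneg (by linarith) (by linarith)
  nlinarith

theorem G_ge {d : ℕ} {γ : ℝ} (hγ : 1 < γ) (y : Fin d → ℝ) (i : Fin d) {M : ℝ} (hM : 1/2 ≤ M)
    (hy : ∀ j, y j ≤ M) :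
    Real.exp (-(((γ - 1) * d + 1) * Real.log M)) ≤ G γ y i := by
  unfold G
  apply Real.exp_le_exp.2
  have h1 : ∑ j, ell (y j) ≤ (d : ℝ) * Real.log M := by
    have : ∑ j, ell (y j) ≤ ∑ _j : Fin d, Real.log M :=
      Finset.sum_le_sum fun j _ => ell_upper (hy j) hM
    simpa using this
  have h2 := ell_upper (hy i) hM
  have h3 : 0 ≤ (γ - 1) * ((d : ℝ) * Real.log M - ∑ j, ell (y j)) :=
    mul_nonneg (by linarith) (by linarith)
  nlinarith

theorem exp_lip {a b C : ℝ} (ha : Real.exp a ≤ C) (hb : Real.exp b ≤ C) :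
    |Real.exp a - Real.exp b| ≤ C * |a - b| := by
  have key : ∀ a b : ℝ, Real.exp a ≤ C → Real.exp a - Real.exp b ≤ C * |a - b| := by
    intro a b ha
    have h1 : b - a + 1 ≤ Real.exp (b - a) := Real.add_one_le_exp _
    have h2 : Real.exp b = Real.exp a * Real.exp (b - a) := by
      rw [← Real.exp_add]; congr 1; ring
    have h3 : Real.exp a - Real.exp b ≤ Real.exp a * (a - b) := by
      rw [h2]
      have := Real.exp_pos a
      nlinarith
    refine h3.trans ?_
    have h4 := le_abs_self (a - b)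
    have h5 := abs_nonneg (a - b)
    have h6 := Real.exp_pos a
    nlinarith
  rw [abs_le]
  constructor
  · have := key b a hb
    rw [abs_sub_comm] at this
    linarith
  · exact key a b ha

theorem exists_lip {d : ℕ} {γ : ℝ} (hγ : 1 < γ) :
    ∃ K L : ℝ≥0, LipschitzWith K (G (d := d) γ) ∧ ∀ y, ‖G (d := d) γ y‖ ≤ L := by
  set C : ℝ := Real.exp (((γ - 1) * d + 1) * Real.log 2) with hC
  have hCpos : 0 < C := Real.exp_pos _
  have hg0 : 0 < γ - 1 := by linarith
  obtain ⟨K, hK⟩ : ∃ K : ℝ≥0, (K : ℝ) = C * ((γ - 1) * (d * 2) + 2) :=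
    ⟨⟨C * ((γ - 1) * (d * 2) + 2), by positivity⟩, rfl⟩
  obtain ⟨L, hL⟩ : ∃ L : ℝ≥0, (L : ℝ) = C := ⟨⟨C, hCpos.le⟩, rfl⟩
  refine ⟨K, L, ?_, ?_⟩
  · apply LipschitzWith.of_dist_le_mul
    intro y z
    rw [dist_pi_le_iff (by positivity)]
    intro i
    rw [Real.dist_eq, hK]
    have h1 := exp_lip (C := C) (G_le hγ y i) (G_le hγ z i)
    refine h1.trans ?_
    rw [mul_assoc]
    apply mul_le_mul_of_nonneg_left _ hCpos.le
    have hdist : ∀ j, |y j - z j| ≤ dist y z := fun j => by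
      rw [← Real.dist_eq]; exact dist_le_pi_dist y z j
    have h2 : |∑ j, ell (y j) - ∑ j, ell (z j)| ≤ d * (2 * dist y z) := by
      rw [← Finset.sum_sub_distrib]
      refine (Finset.abs_sum_le_sum_abs _ _).trans ?_
      have : ∑ j, |ell (y j) - ell (z j)| ≤ ∑ _j : Fin d, 2 * dist y z :=
        Finset.sum_le_sum fun j _ => (ell_lip _ _).trans (by linarith [hdist j])
      simpa using this
    have h3 : |ell (y i) - ell (z i)| ≤ 2 * dist y z := (ell_lip _ _).trans (by linarith [hdist i])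
    have h4 : (-((γ - 1) * ∑ j, ell (y j)) - ell (y i)) - (-((γ - 1) * ∑ j, ell (z j)) - ell (z i))
        = -((γ - 1) * (∑ j, ell (y j) - ∑ j, ell (z j))) + (-(ell (y i) - ell (z i))) := by ring
    rw [h4]
    refine (abs_add_le _ _).trans ?_
    rw [abs_neg, abs_neg, abs_mul, abs_of_pos (show 0 < γ - 1 by linarith)]
    have h5 : (γ - 1) * |∑ j, ell (y j) - ∑ j, ell (z j)| ≤ (γ - 1) * (d * (2 * dist y z)) :=
      mul_le_mul_of_nonneg_left h2 (by linarith)
    nlinarith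
  · intro y
    rw [hL, pi_norm_le_iff_of_nonneg (by exact hCpos.le)]
    intro i
    rw [Real.norm_eq_abs, abs_of_pos (G_pos γ y i)]
    exact G_le hγ y i


/-- `D^{1-γ}` for positive scales. -/
def Qf {d : ℕ} (γ : ℝ) (y : Fin d → ℝ → ℝ) (t : ℝ) : ℝ :=
  Real.exp (-((γ - 1) * ∑ j, Real.log (y j t)))

theorem G_eq {d : ℕ} {γ : ℝ} {Y : Fin d → ℝ} (hY : ∀ i, 1/2 ≤ Y i) (i : Fin d) :
    G γ Y i = Real.exp (-((γ - 1) * ∑ j, Real.log (Y j))) / Y i := by
  unfold G
  have h1 : ∑ j, ell (Y j) = ∑ j, Real.log (Y j) := Finset.sum_congr rfl fun j _ => ell_eq (hY j)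
  have h2 : (0:ℝ) < Y i := lt_of_lt_of_le (by norm_num) (hY i)
  rw [h1, ell_eq (hY i), Real.exp_sub, Real.exp_log h2]

theorem exists_scales (n : ℕ) {γ : ℝ} (hγ : 1 < γ) :
    ∃ c : ℝ, 0 < c ∧ c ≤ 1 ∧ ∀ v : ℝ, 0 < v → v ≤ 1/2 → v ≤ c / 2 →
      ∃ y w : Fin (n+2) → ℝ → ℝ,
        (∀ i t, HasDerivAt (y i) (w i t) t) ∧
        (∀ i t, HasDerivAt (w i) (Qf γ y t / y i t) t) ∧
        (∀ i t, 1/2 ≤ y i t) ∧ (∀ i, y i 0 = 1) ∧ w 0 0 = v ∧ w 1 0 = -v ∧
        (∀ i, i ≠ 0 → i ≠ 1 → w i 0 = 0) ∧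
        (∀ i, ∀ t ∈ Icc (0:ℝ) 1, c ≤ Qf γ y t / y i t) ∧
        (∀ i t, y i (-t) = y (Equiv.swap 0 1 i) t) := by
  obtain ⟨K, L, hK, hL⟩ := exists_lip (d := n + 2) hγ
  set C : ℝ := Real.exp (((γ - 1) * ((n + 2 : ℕ) : ℝ) + 1) * Real.log 2) with hC
  have hCpos : 0 < C := Real.exp_pos _
  set M : ℝ := 3/2 + C with hM
  have hM1 : 1 ≤ M := by linarith
  set c : ℝ := Real.exp (-(((γ - 1) * ((n + 2 : ℕ) : ℝ) + 1) * Real.log M)) with hc
  have hcpos : 0 < c := Real.exp_pos _
  have hc1 : c ≤ 1 := by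
    rw [hc]
    apply Real.exp_le_one_iff.2
    have h1 : 0 ≤ Real.log M := Real.log_nonneg hM1
    have h2 : 0 < γ - 1 := by linarith
    have : 0 ≤ ((γ - 1) * ((n + 2 : ℕ) : ℝ) + 1) * Real.log M := by positivity
    linarith
  refine ⟨c, hcpos, hc1, ?_⟩
  intro v hv hv2 hvc
  let w₀ : Fin (n+2) → ℝ := fun i => if i = 0 then v else if i = 1 then -v else 0
  obtain ⟨Y, W, hY0, hW0, hYW⟩ := exists_global_sol (G (d := n+2) γ) K L hK hL (fun _ => 1) w₀
  have hY : ∀ i t, HasDerivAt (fun s => Y s i) (W t i) t := fun i t =>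
    (hasDerivAt_pi.1 (hYW t).1) i
  have hW : ∀ i t, HasDerivAt (fun s => W s i) (G γ (Y t) i) t := fun i t =>
    (hasDerivAt_pi.1 (hYW t).2) i
  have hw00 : w₀ 0 = v := by simp [w₀]
  have hw01 : w₀ 1 = -v := by simp [w₀]
  have hw0i : ∀ i, i ≠ 0 → i ≠ 1 → w₀ i = 0 := by
    intro i h0 h1; simp [w₀, h0, h1]
  have hw0ge : ∀ i, -v ≤ w₀ i := by
    intro i
    by_cases h0 : i = 0
    · rw [h0, hw00]; linarith
    · by_cases h1 : i = 1
      · rw [h1, hw01]
      · rw [hw0i i h0 h1]; linarith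
  have hw0le : ∀ i, w₀ i ≤ v := by
    intro i
    by_cases h0 : i = 0
    · rw [h0, hw00]
    · by_cases h1 : i = 1
      · rw [h1, hw01]; linarith
      · rw [hw0i i h0 h1]; linarith
  have hw0nn : ∀ i, i ≠ 1 → 0 ≤ w₀ i := by
    intro i h1
    by_cases h0 : i = 0
    · rw [h0, hw00]; linarith
    · rw [hw0i i h0 h1]
  have hlin : ∀ a : ℝ, ∀ t, HasDerivAt (fun s : ℝ => a * s) a t := fun a t => by
    simpa using (hasDerivAt_id t).const_mul a
  have hcst : ∀ a : ℝ, ∀ t, HasDerivAt (fun _ : ℝ => a) 0 t := fun a t => hasDerivAt_const t a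
  -- velocity bounds for `t ≥ 0`
  have hWmono : ∀ i s t, s ≤ t → W s i ≤ W t i := by
    intro i s t hst
    have := incr_le hst (hcst 0) (hW i) (fun r _ => (G_pos γ (Y r) i).le)
    linarith
  have hWlow : ∀ i t, 0 ≤ t → w₀ i ≤ W t i := by
    intro i t ht
    have := hWmono i 0 t ht
    rw [hW0] at this; exact this
  have hWup : ∀ i t, 0 ≤ t → W t i ≤ w₀ i + C * t := by
    intro i t ht
    have := incr_le ht (hW i) (hlin C) (fun r _ => G_le hγ (Y r) i)
    rw [hW0] at this; linarith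
  have hYup : ∀ i, ∀ t ∈ Icc (0:ℝ) 1, Y t i ≤ M := by
    intro i t ht
    have := incr_le ht.1 (hY i) (hlin (v + C)) (fun r hr => by
      have h1 := hWup i r hr.1.le
      have h2 := hw0le i
      have h3 : r ≤ 1 := hr.2.le.trans ht.2
      nlinarith)
    rw [hY0] at this
    have h3 := ht.2
    have h4 := ht.1
    nlinarith
  have hGlow : ∀ i, ∀ t ∈ Icc (0:ℝ) 1, c ≤ G γ (Y t) i := by
    intro i t ht
    exact G_ge hγ (Y t) i (by linarith) (fun j => hYup j t ht)
  have hYlow1 : ∀ i, ∀ t ∈ Icc (0:ℝ) 1, 1/2 ≤ Y t i := by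
    intro i t ht
    have := incr_le ht.1 (hlin (-v)) (hY i) (fun r hr => (hw0ge i).trans (hWlow i r hr.1.le))
    rw [hY0] at this
    have h3 := ht.2
    have h4 := ht.1
    nlinarith
  have hW1 : ∀ i t, 1 ≤ t → 0 ≤ W t i := by
    intro i t ht
    have h1 := incr_le (zero_le_one) (hlin c) (hW i) (fun r hr => hGlow i r ⟨hr.1.le, hr.2.le⟩)
    have h2 := hWmono i 1 t ht
    have h3 := hw0ge i
    rw [hW0] at h1
    linarith
  have hYlow : ∀ i t, 0 ≤ t → 1/2 ≤ Y t i := by
    intro i t ht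
    rcases le_total t 1 with h | h
    · exact hYlow1 i t ⟨ht, h⟩
    · have h1 := hYlow1 i 1 ⟨zero_le_one, le_rfl⟩
      have := incr_le h (hcst 0) (hY i) (fun r hr => hW1 i r hr.1.le)
      linarith
  -- symmetry
  set σ : Equiv.Perm (Fin (n+2)) := Equiv.swap 0 1 with hσ
  have hsym : Y = (fun t i => Y (-t) (σ i)) ∧ W = (fun t i => -W (-t) (σ i)) := by
    apply sol_unique (G (d := n+2) γ) K hK hYW
    · intro t
      constructor
      · rw [hasDerivAt_pi]
        intro i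
        have h1 : HasDerivAt (fun s => Y (-s) (σ i)) (W (-t) (σ i) * (-1)) t :=
          (hY (σ i) (-t)).comp t (hasDerivAt_neg t)
        convert! h1 using 1
        ring
      · rw [hasDerivAt_pi]
        intro i
        have h1 : HasDerivAt (fun s => W (-s) (σ i)) (G γ (Y (-t)) (σ i) * (-1)) t :=
          (hW (σ i) (-t)).comp t (hasDerivAt_neg t)
        have h2 := h1.neg
        have h3 : G γ (fun i => Y (-t) (σ i)) i = G γ (Y (-t)) (σ i) := by
          unfold G
          rw [Equiv.sum_comp σ (fun j => ell (Y (-t) j))]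
        rw [h3]
        convert! h2 using 1
        ring
    · funext i; simp [hY0]
    · funext i
      simp only [neg_zero, hW0]
      by_cases h0 : i = 0
      · rw [h0, hσ, Equiv.swap_apply_left, hw00, hw01]; ring
      · by_cases h1 : i = 1
        · rw [h1, hσ, Equiv.swap_apply_right, hw00, hw01]
        · rw [hσ, Equiv.swap_apply_of_ne_of_ne h0 h1, hw0i i h0 h1]; ring
  have hsymY : ∀ i t, Y (-t) i = Y t (σ i) := by
    intro i t
    have := congrFun (congrFun hsym.1 (-t)) i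
    simpa using this
  have hYall : ∀ i t, 1/2 ≤ Y t i := by
    intro i t
    rcases le_total 0 t with h | h
    · exact hYlow i t h
    · have := hYlow (σ i) (-t) (by linarith)
      rw [← hsymY, neg_neg] at this
      exact this
  refine ⟨fun i t => Y t i, fun i t => W t i, hY, ?_, fun i t => hYall i t, ?_, ?_, ?_, ?_, ?_, ?_⟩
  · intro i t
    have := hW i t
    rw [G_eq (fun j => hYall j t) i] at this
    exact this
  · intro i; simp [hY0]
  · simp only [hW0, hw00]
  · simp only [hW0, hw01]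
  · intro i h0 h1; simp only [hW0]; exact hw0i i h0 h1
  · intro i t ht
    have := hGlow i t ht
    rw [G_eq (fun j => hYall j t) i] at this
    exact this
  · intro i t; exact hsymY i t


theorem Qf_pos {d : ℕ} (γ : ℝ) (y : Fin d → ℝ → ℝ) (t : ℝ) : 0 < Qf γ y t := Real.exp_pos _

theorem Qf_hasDerivAt {d : ℕ} {γ : ℝ} {y w : Fin d → ℝ → ℝ}
    (hy : ∀ i t, HasDerivAt (y i) (w i t) t) (hpos : ∀ i t, 0 < y i t) (t : ℝ) :
    HasDerivAt (Qf γ y) (Qf γ y t * (-((γ - 1) * ∑ j, w j t / y j t))) t := by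
  have h1 : HasDerivAt (fun s => ∑ j, Real.log (y j s)) (∑ j, w j t / y j t) t := by
    apply HasDerivAt.fun_sum
    intro j _
    exact (hy j t).log (hpos j t).ne'
  exact ((h1.const_mul (γ - 1)).neg).exp

theorem energy_const {d : ℕ} {γ : ℝ} (hγ : 1 < γ) {y w : Fin d → ℝ → ℝ}
    (hy : ∀ i t, HasDerivAt (y i) (w i t) t)
    (hw : ∀ i t, HasDerivAt (w i) (Qf γ y t / y i t) t)
    (hpos : ∀ i t, 0 < y i t) (t : ℝ) :
    (∑ i, w i t ^ 2) / 2 + Qf γ y t / (γ - 1) = (∑ i, w i 0 ^ 2) / 2 + Qf γ y 0 / (γ - 1) := by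
  have hg : γ - 1 ≠ 0 := by linarith
  have hd : ∀ s, HasDerivAt (fun s => (∑ i, w i s ^ 2) / 2 + Qf γ y s / (γ - 1)) 0 s := by
    intro s
    have h1 : HasDerivAt (fun s => ∑ i, w i s ^ 2) (∑ i, 2 * w i s * (Qf γ y s / y i s)) s := by
      apply HasDerivAt.fun_sum
      intro j _
      have := (hw j s).fun_pow 2
      simpa using this
    have h2 := (h1.div_const 2).add ((Qf_hasDerivAt (γ := γ) hy hpos s).div_const (γ - 1))
    refine h2.congr_deriv ?_
    have h3 : ∑ i, 2 * w i s * (Qf γ y s / y i s) = 2 * (Qf γ y s * ∑ i, w i s / y i s) := by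
      rw [Finset.mul_sum, Finset.mul_sum]
      apply Finset.sum_congr rfl
      intro i _
      ring
    rw [h3]
    field_simp
    ring
  have := is_const_of_deriv_eq_zero (fun s => (hd s).differentiableAt) (fun s => (hd s).deriv) t 0
  exact this

theorem key_pos {a b p q g S : ℝ} (hb : 0 < b) (hab : b < a) (hg : 1 < g) (hS : 0 ≤ S)
    (hpq : 0 ≤ p + q) (h : g * ((a - b) * (p - q)) < (g - 1) * ((a + b) * (p + q))) :
    0 < 2 * p / a - 2 * q / b - ((p * b - a * q) / b ^ 2 - (q * a - b * p) / a ^ 2)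
      + (g - 1) * (a / b - b / a) * (p / a + q / b + S) := by
  have ha : 0 < a := hb.trans hab
  have e : 2 * p / a - 2 * q / b - ((p * b - a * q) / b ^ 2 - (q * a - b * p) / a ^ 2)
      + (g - 1) * (a / b - b / a) * (p / a + q / b + S)
      = ((a - b) * ((a - b) ^ 2 * (p + q)
          + (a + b) * ((g - 1) * ((a + b) * (p + q)) - g * ((a - b) * (p - q)))) / 2
          + (g - 1) * ((a - b) * (a + b)) * (a * b) * S) / (a ^ 2 * b ^ 2) := by
    field_simp
    ring
  rw [e]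
  apply div_pos _ (by positivity)
  have h1 : 0 < a - b := by linarith
  have h2 : 0 < (g - 1) * ((a + b) * (p + q)) - g * ((a - b) * (p - q)) := by linarith
  have h3 : 0 < g - 1 := by linarith
  have h4 : 0 < a + b := by linarith
  have t1 : 0 ≤ (a - b) ^ 2 * (p + q) := by positivity
  have t2 : 0 < (a + b) * ((g - 1) * ((a + b) * (p + q)) - g * ((a - b) * (p - q))) :=
    mul_pos h4 h2
  have t3 : 0 ≤ (g - 1) * ((a - b) * (a + b)) * (a * b) * S := by positivity
  have t4 : 0 < (a - b) * ((a - b) ^ 2 * (p + q)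
          + (a + b) * ((g - 1) * ((a + b) * (p + q)) - g * ((a - b) * (p - q)))) / 2 := by
    apply div_pos _ two_pos
    exact mul_pos h1 (by linarith)
  linarith

theorem scales_separate {n : ℕ} {γ c v : ℝ} (hγ : 1 < γ) (hc : 0 < c) (hc1 : c ≤ 1)
    (hv : 0 < v) (hvγ : γ * v ^ 2 < (γ - 1) * c ^ 2) {y w : Fin (n+2) → ℝ → ℝ}
    (hy : ∀ i t, HasDerivAt (y i) (w i t) t)
    (hw : ∀ i t, HasDerivAt (w i) (Qf γ y t / y i t) t)
    (hpos : ∀ i t, 1/2 ≤ y i t) (hy0 : ∀ i, y i 0 = 1) (hw0 : w 0 0 = v) (hw1 : w 1 0 = -v)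
    (hwi : ∀ i, i ≠ 0 → i ≠ 1 → w i 0 = 0)
    (hlow : ∀ i, ∀ t ∈ Icc (0:ℝ) 1, c ≤ Qf γ y t / y i t) :
    ∃ δ : ℝ, 0 < δ ∧ ∀ t, 1 ≤ t → δ ≤ w 0 t - w 1 t := by
  have hp : ∀ i t, 0 < y i t := fun i t => lt_of_lt_of_le (by norm_num) (hpos i t)
  have hQ : ∀ t, 0 < Qf γ y t := Qf_pos γ y
  have hg0 : 0 < γ - 1 := by linarith
  have hlin : ∀ a : ℝ, ∀ t, HasDerivAt (fun s : ℝ => a * s) a t := fun a t => by
    simpa using (hasDerivAt_id t).const_mul a
  have hcst : ∀ a : ℝ, ∀ t, HasDerivAt (fun _ : ℝ => a) 0 t := fun a t => hasDerivAt_const t a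
  have hwmono : ∀ i s t, s ≤ t → w i s ≤ w i t := by
    intro i s t hst
    have := incr_le hst (hcst 0) (hw i) (fun r _ => (div_pos (hQ r) (hp i r)).le)
    linarith
  have hwnn : ∀ i, i ≠ 0 → i ≠ 1 → ∀ t, 0 ≤ t → 0 ≤ w i t := by
    intro i h0 h1 t ht
    have := hwmono i 0 t ht
    rw [hwi i h0 h1] at this
    exact this
  -- the sum `u = y 0 + y 1`
  have hu' : ∀ t, HasDerivAt (fun s => y 0 s + y 1 s) (w 0 t + w 1 t) t := fun t =>
    (hy 0 t).add (hy 1 t)
  have hu'1 : ∀ t ∈ Icc (0:ℝ) 1, 2 * c * t ≤ w 0 t + w 1 t := by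
    intro t ht
    have h0 := incr_le ht.1 (hlin c) (hw 0) (fun r hr => hlow 0 r ⟨hr.1.le, hr.2.le.trans ht.2⟩)
    have h1 := incr_le ht.1 (hlin c) (hw 1) (fun r hr => hlow 1 r ⟨hr.1.le, hr.2.le.trans ht.2⟩)
    rw [hw0] at h0
    rw [hw1] at h1
    linarith
  have hu'2 : ∀ t, 1 ≤ t → 2 * c ≤ w 0 t + w 1 t := by
    intro t ht
    have h0 := hwmono 0 1 t ht
    have h1 := hwmono 1 1 t ht
    have h2 := hu'1 1 ⟨zero_le_one, le_rfl⟩
    linarith
  have hu'pos : ∀ t, 0 < t → 0 < w 0 t + w 1 t := by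
    intro t ht
    rcases le_total t 1 with h | h
    · have := hu'1 t ⟨ht.le, h⟩
      have : 0 < 2 * c * t := by positivity
      linarith
    · have := hu'2 t h
      linarith
  have hu'nn : ∀ t, 0 ≤ t → 0 ≤ w 0 t + w 1 t := by
    intro t ht
    rcases ht.eq_or_lt with h | h
    · rw [← h, hw0, hw1]; linarith
    · exact (hu'pos t h).le
  have hu2 : ∀ t, 0 ≤ t → 2 ≤ y 0 t + y 1 t := by
    intro t ht
    have := incr_le ht (hcst 0) hu' (fun r hr => hu'nn r hr.1.le)
    simp only [hy0] at this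
    linarith
  have hu3 : ∀ t, 1 ≤ t → 2 + 2 * c * (t - 1) ≤ y 0 t + y 1 t := by
    intro t ht
    have := incr_le ht (hlin (2 * c)) hu' (fun r hr => hu'2 r hr.1.le)
    have h2 := hu2 1 zero_le_one
    linarith
  have huu : ∀ t, 0 ≤ t → 4 * c ^ 2 * t ≤ (y 0 t + y 1 t) * (w 0 t + w 1 t) := by
    intro t ht
    rcases le_total t 1 with h | h
    · have h1 := hu'1 t ⟨ht, h⟩
      have h2 := hu2 t ht
      have h3 : 4 * c ^ 2 * t ≤ 2 * (2 * c * t) := by
        have : 0 ≤ c * t * (1 - c) := by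
          have : 0 ≤ 1 - c := by linarith
          positivity
        nlinarith
      have h4 : 2 * (2 * c * t) ≤ (y 0 t + y 1 t) * (w 0 t + w 1 t) :=
        mul_le_mul h2 h1 (by positivity) (by linarith)
      linarith
    · have h1 := hu'2 t h
      have h2 := hu3 t h
      have h3 : (2 + 2 * c * (t - 1)) * (2 * c) ≤ (y 0 t + y 1 t) * (w 0 t + w 1 t) :=
        mul_le_mul h2 h1 (by positivity) (by linarith [hu2 t ht])
      have h4 : 0 ≤ c * (1 - c) := by
        have : 0 ≤ 1 - c := by linarith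
        positivity
      nlinarith
  -- the difference
  have hd' : ∀ t, HasDerivAt (fun s => y 0 s - y 1 s) (w 0 t - w 1 t) t := fun t =>
    (hy 0 t).sub (hy 1 t)
  have hd'' : ∀ t, HasDerivAt (fun s => w 0 s - w 1 s) (Qf γ y t / y 0 t - Qf γ y t / y 1 t) t :=
    fun t => (hw 0 t).sub (hw 1 t)
  -- the Wronskian
  let Wf : ℝ → ℝ := fun t => w 0 t ^ 2 - w 1 t ^ 2 - Qf γ y t * (y 0 t / y 1 t - y 1 t / y 0 t)
  let S : ℝ → ℝ := fun t => ∑ j : Fin n, w j.succ.succ t / y j.succ.succ t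
  have hSnn : ∀ t, 0 ≤ t → 0 ≤ S t := by
    intro t ht
    apply Finset.sum_nonneg
    intro j _
    apply div_nonneg _ (hp _ _).le
    apply hwnn _ _ _ t ht
    · exact Fin.succ_ne_zero _
    · rw [← Fin.succ_zero_eq_one]
      intro h
      exact Fin.succ_ne_zero _ (Fin.succ_injective _ h)
  have hsum : ∀ t, ∑ j, w j t / y j t = w 0 t / y 0 t + w 1 t / y 1 t + S t := by
    intro t
    rw [Fin.sum_univ_succ, Fin.sum_univ_succ, Fin.succ_zero_eq_one, ← add_assoc]
  let Wd : ℝ → ℝ := fun t => Qf γ y t * (2 * w 0 t / y 0 t - 2 * w 1 t / y 1 t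
      - ((w 0 t * y 1 t - y 0 t * w 1 t) / y 1 t ^ 2 - (w 1 t * y 0 t - y 1 t * w 0 t) / y 0 t ^ 2)
      + (γ - 1) * (y 0 t / y 1 t - y 1 t / y 0 t) * (w 0 t / y 0 t + w 1 t / y 1 t + S t))
  have hWd : ∀ t, HasDerivAt Wf (Wd t) t := by
    intro t
    have h1 := ((hw 0 t).pow 2).sub ((hw 1 t).pow 2)
    have h2 := ((hy 0 t).div (hy 1 t) (hp 1 t).ne').sub ((hy 1 t).div (hy 0 t) (hp 0 t).ne')
    have h3 := h1.sub ((Qf_hasDerivAt (γ := γ) hy hp t).mul h2)
    refine h3.congr_deriv ?_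
    simp only [Wd]
    rw [hsum t]
    simp only [Pi.div_apply, Pi.sub_apply]
    have e0 := (hp 0 t).ne'
    have e1 := (hp 1 t).ne'
    field_simp
    ring
  -- derivative of the Wronskian is positive as long as the difference is positive
  have hWpos : ∀ T, (∀ s ∈ Ioo 0 T, y 1 s < y 0 s) → ∀ t ∈ Ioo 0 T, 0 < Wd t := by
    intro T hT t ht
    have ht0 : 0 < t := ht.1
    have h1 : ∀ s ∈ Icc 0 t, w 0 s - w 1 s ≤ 2 * v := by
      intro s hs
      have := incr_le hs.1 hd'' (hcst 0) (fun r hr => by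
        have hr' : r ∈ Ioo 0 T := ⟨hr.1, hr.2.trans_le (hs.2.trans ht.2.le)⟩
        have := hT r hr'
        have : Qf γ y r / y 0 r ≤ Qf γ y r / y 1 r :=
          div_le_div_of_nonneg_left (hQ r).le (hp 1 r) this.le
        linarith)
      rw [hw0, hw1] at this
      linarith
    have h2 : y 0 t - y 1 t ≤ 2 * v * t := by
      have := incr_le ht0.le hd' (hlin (2 * v)) (fun r hr => h1 r ⟨hr.1.le, hr.2.le⟩)
      simp only [hy0] at this
      linarith
    have h3 : 0 < y 0 t - y 1 t := by linarith [hT t ht]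
    have h4 := huu t ht0.le
    have h5 : γ * ((y 0 t - y 1 t) * (w 0 t - w 1 t)) <
        (γ - 1) * ((y 0 t + y 1 t) * (w 0 t + w 1 t)) := by
      have h6 : (γ - 1) * (4 * c ^ 2 * t) ≤ (γ - 1) * ((y 0 t + y 1 t) * (w 0 t + w 1 t)) :=
        mul_le_mul_of_nonneg_left h4 hg0.le
      have h7 : (y 0 t - y 1 t) * (w 0 t - w 1 t) ≤ 4 * v ^ 2 * t := by
        rcases le_total (w 0 t - w 1 t) 0 with h | h
        · have : (y 0 t - y 1 t) * (w 0 t - w 1 t) ≤ 0 :=
            mul_nonpos_of_nonneg_of_nonpos h3.le h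
          have : 0 ≤ 4 * v ^ 2 * t := by positivity
          linarith
        · have h8 := h1 t ⟨ht0.le, le_rfl⟩
          have : (y 0 t - y 1 t) * (w 0 t - w 1 t) ≤ (2 * v * t) * (2 * v) :=
            mul_le_mul h2 h8 h (by positivity)
          nlinarith
      have h8 : γ * ((y 0 t - y 1 t) * (w 0 t - w 1 t)) ≤ γ * (4 * v ^ 2 * t) :=
        mul_le_mul_of_nonneg_left h7 (by linarith)
      have h9 : γ * (4 * v ^ 2 * t) < (γ - 1) * (4 * c ^ 2 * t) := by
        have : 0 < ((γ - 1) * c ^ 2 - γ * v ^ 2) * (4 * t) := by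
          apply mul_pos
          · linarith
          · linarith
        nlinarith
      linarith
    exact mul_pos (hQ t) (key_pos (hp 1 t) (hT t ht) hγ (hSnn t ht0.le) (hu'pos t ht0).le h5)
  have hW0 : Wf 0 = 0 := by
    simp only [Wf, hw0, hw1, hy0]
    ring
  have hcd : Continuous (fun s => y 0 s - y 1 s) :=
    continuous_iff_continuousAt.2 fun t => (hd' t).continuousAt
  have hcd' : Continuous (fun s => w 0 s - w 1 s) :=
    continuous_iff_continuousAt.2 fun t => (hd'' t).continuousAt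
  -- the difference is positive for positive times
  have hsep : ∀ t, 0 < t → y 1 t < y 0 t := by
    by_contra hcon
    push Not at hcon
    obtain ⟨T, hT0, hT⟩ := hcon
    have h1 : ∀ᶠ s in 𝓝 (0:ℝ), 0 < w 0 s - w 1 s := by
      apply hcd'.continuousAt.eventually (lt_mem_nhds _)
      show 0 < w 0 0 - w 1 0
      rw [hw0, hw1]; linarith
    obtain ⟨ε, hε, hεs⟩ := Metric.eventually_nhds_iff.1 h1
    have h2 : ∀ s, 0 < s → s < ε → y 1 s < y 0 s := by
      intro s hs hsε
      have := incr_lt hs (hcst 0) hd' (fun r hr => hεs (by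
        rw [Real.dist_eq, sub_zero, abs_of_pos hr.1]; exact hr.2.trans hsε))
      simp only [hy0] at this
      linarith
    have hTε : ε ≤ T := by
      by_contra hlt
      push Not at hlt
      exact absurd (h2 T hT0 hlt) (not_lt.2 hT)
    have hcomp : IsCompact (Icc (ε/2) T ∩ {s | y 0 s - y 1 s ≤ 0}) :=
      isCompact_Icc.inter_right (isClosed_le hcd continuous_const)
    have hne : (Icc (ε/2) T ∩ {s | y 0 s - y 1 s ≤ 0}).Nonempty :=
      ⟨T, ⟨by linarith, le_rfl⟩, by simp only [mem_ofPred_eq]; linarith⟩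
    obtain ⟨t₁, ⟨ht₁, ht₁'⟩, hleast⟩ := hcomp.exists_isLeast hne
    simp only [mem_ofPred_eq] at ht₁'
    have ht₁0 : 0 < t₁ := by linarith [ht₁.1]
    have h3 : ∀ s ∈ Ioo 0 t₁, y 1 s < y 0 s := by
      intro s hs
      rcases lt_or_ge s (ε/2) with h | h
      · exact h2 s hs.1 (by linarith)
      · by_contra hle
        push Not at hle
        have : t₁ ≤ s := hleast ⟨⟨h, hs.2.le.trans ht₁.2⟩, by simp only [mem_ofPred_eq]; linarith⟩
        linarith [hs.2]
    have h4 := incr_lt ht₁0 (hcst 0) hWd (fun r hr => hWpos t₁ h3 r hr)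
    rw [hW0] at h4
    have h5 : y 0 t₁ - y 1 t₁ = 0 := by
      apply le_antisymm ht₁'
      have hcl : t₁ ∈ closure (Ioo 0 t₁) := by
        rw [closure_Ioo ht₁0.ne]
        exact right_mem_Icc.2 ht₁0.le
      have : closure (Ioo 0 t₁) ⊆ {s | 0 ≤ y 0 s - y 1 s} :=
        closure_minimal (fun s hs => by
          have := h3 s hs
          simp only [mem_ofPred_eq]; linarith) (isClosed_le continuous_const hcd)
      exact this hcl
    have h6 : y 0 t₁ = y 1 t₁ := by linarith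
    have h7 : 0 < (w 0 t₁ - w 1 t₁) * (w 0 t₁ + w 1 t₁) := by
      have : Wf t₁ = (w 0 t₁ - w 1 t₁) * (w 0 t₁ + w 1 t₁) := by
        simp only [Wf, h6]
        ring
      rw [← this]; linarith
    have h8 : 0 < w 0 t₁ - w 1 t₁ := by
      by_contra hle
      push Not at hle
      have := mul_nonpos_of_nonpos_of_nonneg hle (hu'pos t₁ ht₁0).le
      linarith
    have h9 : ∀ s ∈ Ioo 0 t₁, 0 < w 0 s - w 1 s := by
      intro s hs
      have := incr_le hs.2.le hd'' (hcst 0) (fun r hr => by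
        have hr' : r ∈ Ioo 0 t₁ := ⟨hs.1.trans hr.1, hr.2⟩
        have := h3 r hr'
        have : Qf γ y r / y 0 r ≤ Qf γ y r / y 1 r :=
          div_le_div_of_nonneg_left (hQ r).le (hp 1 r) this.le
        linarith)
      linarith
    have h10 := incr_lt ht₁0 (hcst 0) hd' h9
    simp only [hy0] at h10
    linarith
  have hWpos' : ∀ t, 0 < t → 0 < Wd t := fun t ht =>
    hWpos (t + 1) (fun s hs => hsep s hs.1) t ⟨ht, by linarith⟩
  have hW1 : 0 < Wf 1 := by
    have := incr_lt zero_lt_one (hcst 0) hWd (fun r hr => hWpos' r hr.1)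
    rw [hW0] at this
    linarith
  have hWge : ∀ t, 1 ≤ t → Wf 1 ≤ Wf t := by
    intro t ht
    have := incr_le ht (hcst 0) hWd (fun r hr => (hWpos' r (by linarith [hr.1])).le)
    linarith
  -- energy bound
  set E : ℝ := (∑ i, w i 0 ^ 2) / 2 + Qf γ y 0 / (γ - 1) with hE
  have hEb : ∀ i t, w i t ^ 2 ≤ 2 * E := by
    intro i t
    have h1 := energy_const hγ hy hw hp t
    have h2 : w i t ^ 2 ≤ ∑ j, w j t ^ 2 :=
      Finset.single_le_sum (f := fun j => w j t ^ 2) (fun j _ => sq_nonneg _) (Finset.mem_univ i)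
    have h3 : 0 < Qf γ y t / (γ - 1) := div_pos (hQ t) hg0
    linarith
  have hE0 : 0 < E := by
    have h3 : 0 < Qf γ y 0 / (γ - 1) := div_pos (hQ 0) hg0
    have h4 : 0 ≤ ∑ i, w i 0 ^ 2 := Finset.sum_nonneg fun i _ => sq_nonneg _
    rw [hE]
    linarith
  set V : ℝ := Real.sqrt (2 * E) with hV
  have hVpos : 0 < V := Real.sqrt_pos.2 (by linarith)
  have hVb : ∀ i t, w i t ≤ V := fun i t => Real.le_sqrt_of_sq_le (hEb i t)
  refine ⟨Wf 1 / (2 * V), by positivity, ?_⟩
  intro t ht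
  have ht0 : 0 < t := by linarith
  rw [div_le_iff₀ (by positivity)]
  have h1 := hWge t ht
  have h2 : Wf t ≤ (w 0 t - w 1 t) * (w 0 t + w 1 t) := by
    have h3 : 0 ≤ Qf γ y t * (y 0 t / y 1 t - y 1 t / y 0 t) := by
      apply mul_nonneg (hQ t).le
      have h4 := hsep t ht0
      have h5 : 1 ≤ y 0 t / y 1 t := (one_le_div (hp 1 t)).2 h4.le
      have h6 : y 1 t / y 0 t ≤ 1 := (div_le_one (hp 0 t)).2 h4.le
      linarith
    simp only [Wf]
    nlinarith
  have h3 : 0 < (w 0 t - w 1 t) * (w 0 t + w 1 t) := by linarith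
  have h4 : 0 < w 0 t - w 1 t := by
    by_contra hle
    push Not at hle
    have := mul_nonpos_of_nonpos_of_nonneg hle (hu'pos t ht0).le
    linarith
  have h5 : (w 0 t - w 1 t) * (w 0 t + w 1 t) ≤ (w 0 t - w 1 t) * (2 * V) := by
    apply mul_le_mul_of_nonneg_left _ h4.le
    linarith [hVb 0 t, hVb 1 t]
  linarith


theorem scale_limit {f g : ℝ → ℝ} (hf : ∀ t, HasDerivAt f (g t) t) (hf0 : f 0 = 1)
    (hfpos : ∀ t, 0 < f t) (hg : Monotone g) {V : ℝ} (hV : ∀ t, g t ≤ V) :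
    ∃ p : ℝ, Tendsto g atTop (𝓝 p) ∧ (∀ t, g t ≤ p) ∧ Tendsto (fun t => f t / t) atTop (𝓝 p) := by
  have hbdd : BddAbove (range g) := ⟨V, by rintro _ ⟨t, rfl⟩; exact hV t⟩
  have hlim := tendsto_atTop_ciSup hg hbdd
  set p := ⨆ i, g i with hp
  have hle : ∀ t, g t ≤ p := fun t => le_ciSup hbdd t
  refine ⟨p, hlim, hle, ?_⟩
  have hlin : ∀ a : ℝ, ∀ t, HasDerivAt (fun s : ℝ => a * s) a t := fun a t => by
    simpa using (hasDerivAt_id t).const_mul a
  have hsqrt : Tendsto Real.sqrt atTop atTop := Real.tendsto_sqrt_atTop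
  have hlow : Tendsto (fun t => g (Real.sqrt t) * (1 - (Real.sqrt t)⁻¹)) atTop (𝓝 p) := by
    have h1 := hlim.comp hsqrt
    have h2 : Tendsto (fun t : ℝ => (Real.sqrt t)⁻¹) atTop (𝓝 0) :=
      tendsto_inv_atTop_zero.comp hsqrt
    have h3 : Tendsto (fun t : ℝ => 1 - (Real.sqrt t)⁻¹) atTop (𝓝 (1 - 0)) := h2.const_sub 1
    have h4 := h1.mul h3
    simp only [sub_zero, mul_one] at h4
    exact h4
  have hup : Tendsto (fun t : ℝ => t⁻¹ + p) atTop (𝓝 p) := by
    have := (tendsto_inv_atTop_zero (𝕜 := ℝ)).add_const p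
    simpa using this
  refine tendsto_of_tendsto_of_tendsto_of_le_of_le' hlow hup ?_ ?_
  · filter_upwards [eventually_ge_atTop (1:ℝ)] with t ht
    have ht0 : 0 < t := by linarith
    have hs1 : 1 ≤ Real.sqrt t := Real.one_le_sqrt.2 ht
    have hs2 : Real.sqrt t ≤ t := by
      rw [Real.sqrt_le_left ht0.le]; nlinarith
    have h1 := incr_le hs2 (hlin (g (Real.sqrt t))) hf (fun r hr => hg hr.1.le)
    have h2 := hfpos (Real.sqrt t)
    rw [le_div_iff₀ ht0]
    have h3 : (Real.sqrt t)⁻¹ * t = Real.sqrt t := by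
      have h4 : Real.sqrt t * Real.sqrt t = t := Real.mul_self_sqrt ht0.le
      have h5 : Real.sqrt t ≠ 0 := by positivity
      field_simp
      nlinarith
    have h4 : g (Real.sqrt t) * (1 - (Real.sqrt t)⁻¹) * t
        = g (Real.sqrt t) * t - g (Real.sqrt t) * ((Real.sqrt t)⁻¹ * t) := by ring
    rw [h4, h3]
    linarith
  · filter_upwards [eventually_gt_atTop (0:ℝ)] with t ht
    have h1 := incr_le ht.le hf (hlin p) (fun r _ => hle r)
    rw [hf0] at h1
    rw [div_le_iff₀ ht]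
    have : (t⁻¹ + p) * t = 1 + p * t := by field_simp
    rw [this]
    linarith

theorem smooth_of_ode {d : ℕ} {γ : ℝ} {y w : Fin d → ℝ → ℝ}
    (hy : ∀ i t, HasDerivAt (y i) (w i t) t)
    (hw : ∀ i t, HasDerivAt (w i) (Qf γ y t / y i t) t)
    (hp : ∀ i t, 0 < y i t) (m : ℕ) : ∀ i, ContDiff ℝ m (y i) ∧ ContDiff ℝ m (w i) := by
  induction m with
  | zero =>
    intro i
    simp only [Nat.cast_zero, contDiff_zero]
    exact ⟨continuous_iff_continuousAt.2 fun t => (hy i t).continuousAt,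
      continuous_iff_continuousAt.2 fun t => (hw i t).continuousAt⟩
  | succ m ih =>
    intro i
    have hQ : ContDiff ℝ m (Qf γ y) := by
      unfold Qf
      apply ContDiff.exp
      apply ContDiff.neg
      apply ContDiff.mul contDiff_const
      apply ContDiff.sum
      intro j _
      exact (ih j).1.log (fun t => (hp j t).ne')
    constructor
    · push_cast
      rw [contDiff_succ_iff_deriv]
      refine ⟨fun t => (hy i t).differentiableAt, by simp, ?_⟩
      have : deriv (y i) = w i := funext fun t => (hy i t).deriv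
      rw [this]
      exact (ih i).2
    · push_cast
      rw [contDiff_succ_iff_deriv]
      refine ⟨fun t => (hw i t).differentiableAt, by simp, ?_⟩
      have : deriv (w i) = fun t => Qf γ y t / y i t := funext fun t => (hw i t).deriv
      rw [this]
      exact hQ.div (ih i).1 (fun t => (hp i t).ne')

theorem Qf_eq {d : ℕ} (γ : ℝ) {y : Fin d → ℝ → ℝ} (hp : ∀ i t, 0 < y i t) (t : ℝ) :
    Qf γ y t = (∏ j, y j t) ^ (1 - γ) := by
  unfold Qf
  rw [Real.rpow_def_of_pos (Finset.prod_pos fun j _ => hp j t),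
    Real.log_prod (fun j _ => (hp j t).ne')]
  congr 1
  ring

/-- The scales of the affine motion. -/
theorem exists_good_scales (n : ℕ) {γ : ℝ} (hγ : 1 < γ) :
    ∃ (y w : Fin (n+2) → ℝ → ℝ) (p : Fin (n+2) → ℝ),
      (∀ i t, HasDerivAt (y i) (w i t) t) ∧
      (∀ i t, HasDerivAt (w i) ((∏ j, y j t) ^ (1 - γ) / y i t) t) ∧
      (∀ i t, 0 < y i t) ∧ (∀ i, ContDiff ℝ ∞ (y i)) ∧ (∀ i, ContDiff ℝ ∞ (w i)) ∧
      (∀ i t, y i (-t) = y (Equiv.swap 0 1 i) t) ∧
      (∀ i, 0 < p i) ∧ p 1 < p 0 ∧ (∀ i, Tendsto (fun t => y i t / t) atTop (𝓝 (p i))) := by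
  obtain ⟨c, hc, hc1, hex⟩ := exists_scales n hγ
  have hg0 : 0 < γ - 1 := by linarith
  -- choice of the small parameter
  obtain ⟨v, hv, hv1, hvc, hvγ⟩ : ∃ v : ℝ, 0 < v ∧ v ≤ 1/2 ∧ v ≤ c / 2 ∧
      γ * v ^ 2 < (γ - 1) * c ^ 2 := by
    refine ⟨min (1/2) (c / 2) * min 1 ((γ - 1) / γ), ?_, ?_, ?_, ?_⟩
    · have : 0 < (γ - 1) / γ := by positivity
      positivity
    · have h1 : min (1/2) (c/2) ≤ 1/2 := min_le_left _ _
      have h2 : min 1 ((γ - 1) / γ) ≤ 1 := min_le_left _ _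
      have h3 : 0 < min 1 ((γ - 1) / γ) := by
        have : 0 < (γ - 1) / γ := by positivity
        positivity
      have h4 : 0 < min (1/2) (c/2) := by positivity
      nlinarith
    · have h1 : min (1/2) (c/2) ≤ c/2 := min_le_right _ _
      have h2 : min 1 ((γ - 1) / γ) ≤ 1 := min_le_left _ _
      have h3 : 0 < min 1 ((γ - 1) / γ) := by
        have : 0 < (γ - 1) / γ := by positivity
        positivity
      have h4 : 0 < min (1/2) (c/2) := by positivity
      nlinarith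
    · set A := min (1/2) (c/2)
      set B := min 1 ((γ - 1) / γ)
      have hA : A ≤ c/2 := min_le_right _ _
      have hA0 : 0 < A := by positivity
      have hB1 : B ≤ 1 := min_le_left _ _
      have hB2 : B ≤ (γ - 1) / γ := min_le_right _ _
      have hB0 : 0 < B := by
        have : 0 < (γ - 1) / γ := by positivity
        positivity
      have h1 : γ * B ≤ γ - 1 := by
        rw [le_div_iff₀ (by linarith)] at hB2
        linarith
      have h2 : γ * B ^ 2 ≤ γ - 1 := by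
        have : γ * B * B ≤ (γ - 1) * 1 := mul_le_mul h1 hB1 hB0.le hg0.le
        nlinarith
      have h3 : A ^ 2 ≤ c ^ 2 / 4 := by nlinarith
      have h4 : γ * (A * B) ^ 2 = (γ * B ^ 2) * A ^ 2 := by ring
      rw [h4]
      have h5 : (γ * B ^ 2) * A ^ 2 ≤ (γ - 1) * (c ^ 2 / 4) :=
        mul_le_mul h2 h3 (by positivity) hg0.le
      have h6 : 0 < (γ - 1) * c ^ 2 := by positivity
      linarith
  obtain ⟨y, w, hy, hw, hpos, hy0, hw0, hw1, hwi, hlow, hsym⟩ := hex v hv hv1 hvc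
  have hp : ∀ i t, 0 < y i t := fun i t => lt_of_lt_of_le (by norm_num) (hpos i t)
  obtain ⟨δ, hδ, hsep⟩ := scales_separate hγ hc hc1 hv hvγ hy hw hpos hy0 hw0 hw1 hwi hlow
  have hQ : ∀ t, 0 < Qf γ y t := Qf_pos γ y
  have hlin : ∀ a : ℝ, ∀ t, HasDerivAt (fun s : ℝ => a * s) a t := fun a t => by
    simpa using (hasDerivAt_id t).const_mul a
  have hcst : ∀ a : ℝ, ∀ t, HasDerivAt (fun _ : ℝ => a) 0 t := fun a t => hasDerivAt_const t a
  have hwmono : ∀ i, Monotone (w i) := by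
    intro i s t hst
    have := incr_le hst (hcst 0) (hw i) (fun r _ => (div_pos (hQ r) (hp i r)).le)
    linarith
  have hw0ge : ∀ i, -v ≤ w i 0 := by
    intro i
    by_cases h0 : i = 0
    · rw [h0, hw0]; linarith
    · by_cases h1 : i = 1
      · rw [h1, hw1]
      · rw [hwi i h0 h1]; linarith
  have hw1pos : ∀ i, 0 < w i 1 := by
    intro i
    have h1 := incr_le (zero_le_one) (hlin c) (hw i) (fun r hr => hlow i r ⟨hr.1.le, hr.2.le⟩)
    have h2 := hw0ge i
    linarith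
  set E : ℝ := (∑ i, w i 0 ^ 2) / 2 + Qf γ y 0 / (γ - 1) with hE
  have hEb : ∀ i t, w i t ^ 2 ≤ 2 * E := by
    intro i t
    have h1 := energy_const hγ hy hw hp t
    have h2 : w i t ^ 2 ≤ ∑ j, w j t ^ 2 :=
      Finset.single_le_sum (f := fun j => w j t ^ 2) (fun j _ => sq_nonneg _) (Finset.mem_univ i)
    have h3 : 0 < Qf γ y t / (γ - 1) := div_pos (hQ t) hg0
    linarith
  have hlimit : ∀ i, ∃ p : ℝ, Tendsto (w i) atTop (𝓝 p) ∧ (∀ t, w i t ≤ p) ∧
      Tendsto (fun t => y i t / t) atTop (𝓝 p) := fun i =>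
    scale_limit (hy i) (hy0 i) (hp i) (hwmono i)
      (V := Real.sqrt (2 * E)) (fun t => Real.le_sqrt_of_sq_le (hEb i t))
  choose p hp1 hp2 hp3 using hlimit
  refine ⟨y, w, p, hy, ?_, hp, ?_, ?_, hsym, ?_, ?_, hp3⟩
  · intro i t
    rw [← Qf_eq γ hp t]
    exact hw i t
  · intro i
    rw [contDiff_infty]
    intro m
    exact (smooth_of_ode hy hw hp m i).1
  · intro i
    rw [contDiff_infty]
    intro m
    exact (smooth_of_ode hy hw hp m i).2
  · intro i
    exact lt_of_lt_of_le (hw1pos i) (hp2 i 1)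
  · have h1 : Tendsto (fun t => w 0 t - w 1 t) atTop (𝓝 (p 0 - p 1)) := (hp1 0).sub (hp1 1)
    have h2 : δ ≤ p 0 - p 1 :=
      ge_of_tendsto h1 ((eventually_ge_atTop 1).mono fun t ht => hsep t ht)
    linarith

end Pool.Agent.Lib.MP_f907ca_an
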