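import Pool.Agent.Lib.MP_f907ca_an.Defs
import Pool.Agent.Lib.MP_f907ca_an.Ode

open Set Filter Topology
open scoped ContDiff

noncomputable section

namespace Pool.Agent.Lib.MP_f907ca_an

variable {d : ℕ}

/-- The quadratic profile `1 - |F⁻¹x|²`. -/
def phi (y : Fin d → ℝ → ℝ) (t : ℝ) (x : Space d) : ℝ := 1 - ∑ j, (x j / y j t) ^ 2

/-- The Jacobian. -/
def D (y : Fin d → ℝ → ℝ) (t : ℝ) : ℝ := ∏ j, y j t

/-- The density. -/
def dens (K a : ℝ) (y : Fin d → ℝ → ℝ) (t : ℝ) (x : Space d) : ℝ :=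
  K * (D y t)⁻¹ * (max (phi y t x) 0) ^ a

/-- The velocity. -/
def vel (y w : Fin d → ℝ → ℝ) (t : ℝ) (x : Space d) : Space d :=
  WithLp.toLp 2 (fun i => w i t / y i t * x i)

/-- The affine flow. -/
def affine (K a : ℝ) (y w : Fin d → ℝ → ℝ) : Flow d where
  Ω t := {x | 0 < phi y t x}
  ρ := dens K a y
  u := vel y w

theorem vel_apply (y w : Fin d → ℝ → ℝ) (t : ℝ) (x : Space d) (i : Fin d) :
    vel y w t x i = w i t / y i t * x i := rfl

theorem shift_apply (x : Space d) (h : ℝ) (i j : Fin d) :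
    (x + h • EuclideanSpace.single i (1 : ℝ)) j = x j + h * (if j = i then 1 else 0) := by
  simp

theorem coord_hasDerivAt (x : Space d) (i j : Fin d) :
    HasDerivAt (fun h : ℝ => (x + h • EuclideanSpace.single i (1 : ℝ)) j)
      (if j = i then 1 else 0) 0 := by
  have h1 : HasDerivAt (fun h : ℝ => x j + h * (if j = i then (1:ℝ) else 0))
      (if j = i then 1 else 0) 0 := by
    have := ((hasDerivAt_id (0:ℝ)).mul_const (if j = i then (1:ℝ) else 0)).const_add (x j)
    simpa using this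
  refine h1.congr_of_eventuallyEq ?_
  exact Filter.Eventually.of_forall fun h => shift_apply x h i j

theorem phi_dx (y : Fin d → ℝ → ℝ) (t : ℝ) (x : Space d) (i : Fin d) :
    HasDerivAt (fun h : ℝ => phi y t (x + h • EuclideanSpace.single i (1 : ℝ)))
      (-(2 * x i / y i t ^ 2)) 0 := by
  unfold phi
  have h1 : HasDerivAt (fun h : ℝ => ∑ j, ((x + h • EuclideanSpace.single i (1 : ℝ)) j / y j t) ^ 2)
      (∑ j, 2 * (x j / y j t) * ((if j = i then 1 else 0) / y j t)) 0 := by
    apply HasDerivAt.fun_sum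
    intro j _
    have := (((coord_hasDerivAt x i j).div_const (y j t)).fun_pow 2)
    simpa using this
  have h2 := h1.const_sub 1
  refine h2.congr_deriv ?_
  rw [Finset.sum_eq_single i]
  · simp only [if_true]
    ring
  · intro j _ hj
    simp [hj]
  · intro h; exact absurd (Finset.mem_univ i) h

theorem phi_dt {y w : Fin d → ℝ → ℝ} (hy : ∀ i t, HasDerivAt (y i) (w i t) t)
    (hp : ∀ i t, 0 < y i t) (t : ℝ) (x : Space d) :
    HasDerivAt (fun s : ℝ => phi y s x) (∑ j, 2 * x j ^ 2 * w j t / y j t ^ 3) t := by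
  unfold phi
  have h1 : HasDerivAt (fun s : ℝ => ∑ j, (x j / y j s) ^ 2)
      (∑ j, -(2 * x j ^ 2 * w j t / y j t ^ 3)) t := by
    apply HasDerivAt.fun_sum
    intro j _
    have h := (((hasDerivAt_const t (x j)).fun_div (hy j t) (hp j t).ne').fun_pow 2)
    refine h.congr_deriv ?_
    have := (hp j t).ne'
    simp
    field_simp
    try ring
  have h2 := h1.const_sub 1
  refine h2.congr_deriv ?_
  rw [Finset.sum_neg_distrib, neg_neg]

theorem D_pos {y : Fin d → ℝ → ℝ} (hp : ∀ i t, 0 < y i t) (t : ℝ) : 0 < D y t :=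
  Finset.prod_pos fun j _ => hp j t

theorem D_hasDerivAt {y w : Fin d → ℝ → ℝ} (hy : ∀ i t, HasDerivAt (y i) (w i t) t)
    (hp : ∀ i t, 0 < y i t) (t : ℝ) :
    HasDerivAt (D y) (D y t * ∑ j, w j t / y j t) t := by
  unfold D
  have h := HasDerivAt.fun_finsetProd (u := Finset.univ) (f := y) (f' := fun i => w i t) (x := t)
    (fun i _ => hy i t)
  refine h.congr_deriv ?_
  rw [Finset.mul_sum]
  apply Finset.sum_congr rfl
  intro i _
  rw [← Finset.mul_prod_erase Finset.univ (fun j => y j t) (Finset.mem_univ i)]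
  have := (hp i t).ne'
  simp only [smul_eq_mul]
  field_simp

/-- derivative of the density along a curve. -/
theorem dens_curve {K a : ℝ} {y : Fin d → ℝ → ℝ} {T : ℝ → ℝ} {X : ℝ → Space d} {s₀ D' φ' : ℝ}
    (hD : HasDerivAt (fun s => D y (T s)) D' s₀) (hDpos : 0 < D y (T s₀))
    (hφ : HasDerivAt (fun s => phi y (T s) (X s)) φ' s₀) (hpos : 0 < phi y (T s₀) (X s₀)) :
    HasDerivAt (fun s => dens K a y (T s) (X s))
      (K * (-(D' / D y (T s₀) ^ 2)) * phi y (T s₀) (X s₀) ^ a
        + K * (D y (T s₀))⁻¹ * (φ' * a * phi y (T s₀) (X s₀) ^ (a - 1))) s₀ := by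
  have h1 : HasDerivAt (fun s => (phi y (T s) (X s)) ^ a)
      (φ' * a * phi y (T s₀) (X s₀) ^ (a - 1)) s₀ := hφ.rpow_const (Or.inl hpos.ne')
  have h2 : HasDerivAt (fun s => K * (D y (T s))⁻¹) (K * (-(D' / D y (T s₀) ^ 2))) s₀ := by
    have := (hD.fun_inv hDpos.ne').const_mul K
    refine this.congr_deriv ?_
    ring
  have h3 := h2.fun_mul h1
  refine (h3.congr_of_eventuallyEq ?_)
  have hev : ∀ᶠ s in 𝓝 s₀, 0 < phi y (T s) (X s) := hφ.continuousAt.eventually (lt_mem_nhds hpos)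
  filter_upwards [hev] with s hs
  unfold dens
  rw [max_eq_left hs.le]


theorem dens_dt {K a : ℝ} {y w : Fin d → ℝ → ℝ} (hy : ∀ i t, HasDerivAt (y i) (w i t) t)
    (hp : ∀ i t, 0 < y i t) {t : ℝ} {x : Space d} (hx : 0 < phi y t x) :
    HasDerivAt (fun s => dens K a y s x)
      (-(K * (D y t)⁻¹ * (∑ j, w j t / y j t) * phi y t x ^ a)
        + K * (D y t)⁻¹ * ((∑ j, 2 * x j ^ 2 * w j t / y j t ^ 3) * a * phi y t x ^ (a - 1))) t := by
  have hD := D_pos hp t
  have := dens_curve (K := K) (a := a) (T := fun s => s) (X := fun _ => x)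
    (D_hasDerivAt hy hp t) hD (phi_dt hy hp t x) hx
  refine this.congr_deriv ?_
  field_simp

theorem dens_dx {K a : ℝ} {y : Fin d → ℝ → ℝ}
    (hp : ∀ i t, 0 < y i t) {t : ℝ} {x : Space d} (hx : 0 < phi y t x) (i : Fin d) :
    HasDerivAt (fun h : ℝ => dens K a y t (x + h • EuclideanSpace.single i (1 : ℝ)))
      (K * (D y t)⁻¹ * (-(2 * x i / y i t ^ 2) * a * phi y t x ^ (a - 1))) 0 := by
  have hD := D_pos hp t
  have h0 : x + (0:ℝ) • EuclideanSpace.single i (1 : ℝ) = x := by simp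
  have := dens_curve (K := K) (a := a) (y := y) (T := fun _ => t)
    (X := fun h : ℝ => x + h • EuclideanSpace.single i (1 : ℝ)) (s₀ := 0)
    (hasDerivAt_const (0:ℝ) (D y t)) hD (phi_dx y t x i) (by simpa using hx)
  refine this.congr_deriv ?_
  rw [h0]
  simp

theorem vel_dx {y w : Fin d → ℝ → ℝ} (t : ℝ) (x : Space d) (i j : Fin d) :
    HasDerivAt (fun h : ℝ => vel y w t (x + h • EuclideanSpace.single j (1 : ℝ)) i)
      (w i t / y i t * (if i = j then 1 else 0)) 0 := by
  have := (coord_hasDerivAt x j i).const_mul (w i t / y i t)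
  exact this

theorem vel_dt {γ : ℝ} {y w : Fin d → ℝ → ℝ} (hy : ∀ i t, HasDerivAt (y i) (w i t) t)
    (hw : ∀ i t, HasDerivAt (w i) (D y t ^ (1 - γ) / y i t) t)
    (hp : ∀ i t, 0 < y i t) (t : ℝ) (x : Space d) (i : Fin d) :
    HasDerivAt (fun s : ℝ => vel y w s x i)
      ((D y t ^ (1 - γ) - w i t ^ 2) / y i t ^ 2 * x i) t := by
  have := ((hw i t).fun_div (hy i t) (hp i t).ne').mul_const (x i)
  refine this.congr_deriv ?_
  have := (hp i t).ne'
  field_simp

theorem transport {y w : Fin d → ℝ → ℝ} (t : ℝ) (x : Space d) :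
    ∑ i, (2 * x i / y i t ^ 2) * (w i t / y i t * x i)
      = ∑ j, 2 * x j ^ 2 * w j t / y j t ^ 3 := by
  apply Finset.sum_congr rfl
  intro i _
  ring

theorem mass_identity {K a : ℝ} {y w : Fin d → ℝ → ℝ} (hy : ∀ i t, HasDerivAt (y i) (w i t) t)
    (hp : ∀ i t, 0 < y i t) {t : ℝ} {x : Space d} (hx : 0 < phi y t x) :
    dt (dens K a y) t x + ∑ i, dx i (fun s z => dens K a y s z * vel y w s z i) t x = 0 := by
  have hD := D_pos hp t
  have h0 : ∀ i : Fin d, x + (0:ℝ) • EuclideanSpace.single i (1 : ℝ) = x := by intro i; simp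
  have e1 : dt (dens K a y) t x = _ := (dens_dt (K := K) (a := a) hy hp hx).deriv
  have e2 : ∀ i, dx i (fun s z => dens K a y s z * vel y w s z i) t x = _ := fun i =>
    ((dens_dx (K := K) (a := a) hp hx i).fun_mul (vel_dx (w := w) t x i i)).deriv
  rw [e1, Finset.sum_congr rfl (fun i _ => e2 i)]
  simp only [h0, if_true, vel_apply, mul_one]
  have e3 : dens K a y t x = K * (D y t)⁻¹ * phi y t x ^ a := by
    unfold dens; rw [max_eq_left hx.le]
  rw [e3, Finset.sum_add_distrib, ← Finset.mul_sum, ← transport t x]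
  have e4 : ∑ i, K * (D y t)⁻¹ * (-(2 * x i / y i t ^ 2) * a * phi y t x ^ (a - 1)) *
      (w i t / y i t * x i) = -(K * (D y t)⁻¹ *
      ((∑ i, (2 * x i / y i t ^ 2) * (w i t / y i t * x i)) * a * phi y t x ^ (a - 1))) := by
    rw [Finset.sum_mul, Finset.sum_mul, Finset.mul_sum, ← Finset.sum_neg_distrib]
    apply Finset.sum_congr rfl
    intro i _
    ring
  rw [e4]
  ring

/-- `ρ^{γ-1} = κ D^{1-γ} φ₊`. -/
theorem dens_rpow {γ κ : ℝ} (hγ : 1 < γ) (hκ : 0 < κ) {y : Fin d → ℝ → ℝ}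
    (hp : ∀ i t, 0 < y i t) (t : ℝ) (x : Space d) :
    dens (κ ^ (1 / (γ - 1))) (1 / (γ - 1)) y t x ^ (γ - 1)
      = κ * D y t ^ (1 - γ) * max (phi y t x) 0 := by
  have hD := D_pos hp t
  have hg : γ - 1 ≠ 0 := by linarith
  have h1 : (0:ℝ) ≤ max (phi y t x) 0 := le_max_right _ _
  unfold dens
  rw [Real.mul_rpow (by positivity) (by positivity), Real.mul_rpow (by positivity) (by positivity),
    ← Real.rpow_mul hκ.le, ← Real.rpow_mul h1, Real.inv_rpow hD.le, ← Real.rpow_neg hD.le]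
  have h2 : 1 / (γ - 1) * (γ - 1) = 1 := by field_simp
  rw [h2, Real.rpow_one, Real.rpow_one]
  congr 3
  ring

theorem momentum_identity {A γ κ : ℝ} (hA : 0 < A) (hγ : 1 < γ) (hκ : κ = (γ - 1) / (2 * A * γ))
    {y w : Fin d → ℝ → ℝ} (hy : ∀ i t, HasDerivAt (y i) (w i t) t)
    (hw : ∀ i t, HasDerivAt (w i) (D y t ^ (1 - γ) / y i t) t)
    (hp : ∀ i t, 0 < y i t) {t : ℝ} {x : Space d} (hx : 0 < phi y t x) (i : Fin d) :
    dt (fun s z => dens (κ ^ (1 / (γ - 1))) (1 / (γ - 1)) y s z * vel y w s z i) t x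
      + ∑ j, dx j (fun s z => dens (κ ^ (1 / (γ - 1))) (1 / (γ - 1)) y s z
          * vel y w s z i * vel y w s z j) t x
      + dx i (fun s z => A * dens (κ ^ (1 / (γ - 1))) (1 / (γ - 1)) y s z ^ γ) t x = 0 := by
  have hg0 : 0 < γ - 1 := by linarith
  have hκ0 : 0 < κ := by rw [hκ]; positivity
  have hD := D_pos hp t
  set K : ℝ := κ ^ (1 / (γ - 1)) with hK
  have hKpos : 0 < K := Real.rpow_pos_of_pos hκ0 _
  set a : ℝ := 1 / (γ - 1) with ha
  have h0 : ∀ i : Fin d, x + (0:ℝ) • EuclideanSpace.single i (1 : ℝ) = x := by intro i; simp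
  have hmass := mass_identity (K := K) (a := a) (w := w) hy hp hx
  -- names for the density and its derivatives
  set R : ℝ := dens K a y t x with hR
  have e3 : R = K * (D y t)⁻¹ * phi y t x ^ a := by
    rw [hR]; unfold dens; rw [max_eq_left hx.le]
  have hRpos : 0 < R := by
    rw [e3]
    have := Real.rpow_pos_of_pos hx a
    positivity
  have d1 := dens_dt (K := K) (a := a) hy hp hx
  set Rt : ℝ := -(K * (D y t)⁻¹ * (∑ j, w j t / y j t) * phi y t x ^ a)
        + K * (D y t)⁻¹ * ((∑ j, 2 * x j ^ 2 * w j t / y j t ^ 3) * a * phi y t x ^ (a - 1)) with hRt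
  let Rx : Fin d → ℝ := fun j => K * (D y t)⁻¹ * (-(2 * x j / y j t ^ 2) * a * phi y t x ^ (a - 1))
  have d2 : ∀ j, HasDerivAt (fun h : ℝ => dens K a y t (x + h • EuclideanSpace.single j (1 : ℝ)))
      (Rx j) 0 := fun j => dens_dx (K := K) (a := a) hp hx j
  have e1 : dt (dens K a y) t x = Rt := d1.deriv
  have e2 : ∀ j, dx j (fun s z => dens K a y s z * vel y w s z j) t x = _ := fun j =>
    ((d2 j).fun_mul (vel_dx (w := w) t x j j)).deriv
  rw [e1, Finset.sum_congr rfl (fun i _ => e2 i)] at hmass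
  simp only [h0, if_true, mul_one, ← hR] at hmass
  have e4 : dt (fun s z => dens K a y s z * vel y w s z i) t x = _ :=
    (d1.fun_mul (vel_dt (γ := γ) hy hw hp t x i)).deriv
  have e5 : ∀ j, dx j (fun s z => dens K a y s z * vel y w s z i * vel y w s z j) t x = _ :=
    fun j => (((d2 j).fun_mul (vel_dx (w := w) t x i j)).fun_mul (vel_dx (w := w) t x j j)).deriv
  have hRne : dens K a y t (x + (0:ℝ) • EuclideanSpace.single i (1 : ℝ)) ≠ 0 := by
    rw [h0]; exact hRpos.ne'
  have e6 : dx i (fun s z => A * dens K a y s z ^ γ) t x = _ :=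
    (((d2 i).rpow_const (p := γ) (Or.inl hRne)).const_mul A).deriv
  rw [e4, Finset.sum_congr rfl (fun i _ => e5 i), e6]
  simp only [h0, if_true, mul_one, ← hR]
  have e7 : ∑ j, ((Rx j * vel y w t x i + R * (w i t / y i t * (if i = j then 1 else 0)))
      * vel y w t x j + R * vel y w t x i * (w j t / y j t))
      = vel y w t x i * ∑ j, (Rx j * vel y w t x j + R * (w j t / y j t))
        + R * (w i t / y i t) * vel y w t x i := by
    have : ∀ j, (Rx j * vel y w t x i + R * (w i t / y i t * (if i = j then 1 else 0)))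
      * vel y w t x j + R * vel y w t x i * (w j t / y j t)
      = vel y w t x i * (Rx j * vel y w t x j + R * (w j t / y j t))
        + (if i = j then R * (w i t / y i t) * vel y w t x j else 0) := by
      intro j
      split_ifs <;> ring
    rw [Finset.sum_congr rfl (fun j _ => this j), Finset.sum_add_distrib, ← Finset.mul_sum,
      Finset.sum_ite_eq]
    simp
  rw [e7]
  have e8 : R ^ (γ - 1) = κ * D y t ^ (1 - γ) * phi y t x := by
    have := dens_rpow hγ hκ0 hp t x
    rw [max_eq_left hx.le] at this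
    exact this
  have e9 : phi y t x ^ (a - 1) * phi y t x = phi y t x ^ a := by
    rw [← Real.rpow_add_one hx.ne']
    congr 1; ring
  have e10 : Rx i * (κ * D y t ^ (1 - γ) * phi y t x) * (A * γ)
      = -(R * (D y t ^ (1 - γ)) * x i / y i t ^ 2) := by
    have : Rx i * (κ * D y t ^ (1 - γ) * phi y t x) * (A * γ)
      = K * (D y t)⁻¹ * (-(2 * x i / y i t ^ 2) * a) * κ * D y t ^ (1 - γ) * (A * γ) *
        (phi y t x ^ (a - 1) * phi y t x) := by
      simp only [Rx]; ring
    rw [this, e9, e3, hκ, ha]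
    have := (hp i t).ne'
    field_simp
  rw [e8]
  have hsplit : Rt = -∑ j, (Rx j * vel y w t x j + R * (w j t / y j t)) := by linarith
  rw [hsplit]
  generalize (∑ j, (Rx j * vel y w t x j + R * (w j t / y j t))) = Sg
  have e11 : A * (Rx i * γ * (κ * D y t ^ (1 - γ) * phi y t x))
      = -(R * (D y t ^ (1 - γ)) * x i / y i t ^ 2) := by
    rw [← e10]; ring
  rw [e11, vel_apply]
  have := (hp i t).ne'
  field_simp
  ring


theorem coord_contDiff {n : WithTop ℕ∞} (j : Fin d) :
    ContDiff ℝ n (fun p : ℝ × Space d => p.2 j) :=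
  (contDiff_piLp_apply (𝕜 := ℝ) (E := fun _ : Fin d => ℝ) 2 (i := j)).comp contDiff_snd

theorem phi_contDiff {n : WithTop ℕ∞} {y : Fin d → ℝ → ℝ} (hys : ∀ i, ContDiff ℝ n (y i))
    (hp : ∀ i t, 0 < y i t) :
    ContDiff ℝ n (fun p : ℝ × Space d => phi y p.1 p.2) := by
  unfold phi
  apply ContDiff.sub contDiff_const
  apply ContDiff.sum
  intro j _
  apply ContDiff.pow
  exact (coord_contDiff j).div ((hys j).comp contDiff_fst) (fun p => (hp j p.1).ne')

theorem D_contDiff {n : WithTop ℕ∞} {y : Fin d → ℝ → ℝ} (hys : ∀ i, ContDiff ℝ n (y i)) :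
    ContDiff ℝ n (D y) := by
  unfold D
  exact contDiff_prod fun i _ => hys i

theorem vel_contDiff {n : WithTop ℕ∞} {y w : Fin d → ℝ → ℝ} (hys : ∀ i, ContDiff ℝ n (y i))
    (hws : ∀ i, ContDiff ℝ n (w i)) (hp : ∀ i t, 0 < y i t) :
    ContDiff ℝ n (fun p : ℝ × Space d => vel y w p.1 p.2) := by
  apply contDiff_piLp'
  intro i
  simp only [vel_apply]
  exact (((hws i).comp contDiff_fst).div ((hys i).comp contDiff_fst)
    (fun p => (hp i p.1).ne')).mul (coord_contDiff i)

theorem isOpen_domain' {y : Fin d → ℝ → ℝ} (hys : ∀ i, ContDiff ℝ ∞ (y i))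
    (hp : ∀ i t, 0 < y i t) : IsOpen {p : ℝ × Space d | 0 < phi y p.1 p.2} :=
  isOpen_lt continuous_const (phi_contDiff hys hp).continuous

theorem dens_contDiffOn {K a : ℝ} {y : Fin d → ℝ → ℝ} (hys : ∀ i, ContDiff ℝ ∞ (y i))
    (hp : ∀ i t, 0 < y i t) :
    ContDiffOn ℝ 1 (fun p : ℝ × Space d => dens K a y p.1 p.2)
      {p : ℝ × Space d | 0 < phi y p.1 p.2} := by
  have hphi : ContDiff ℝ 1 (fun p : ℝ × Space d => phi y p.1 p.2) :=
    (phi_contDiff hys hp).of_le (by exact_mod_cast le_top)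
  have hD : ContDiff ℝ 1 (D y) := (D_contDiff hys).of_le (by exact_mod_cast le_top)
  have h1 : ContDiffOn ℝ 1 (fun p : ℝ × Space d => K * (D y p.1)⁻¹ * phi y p.1 p.2 ^ a)
      {p : ℝ × Space d | 0 < phi y p.1 p.2} := by
    apply ContDiffOn.mul
    · apply ContDiff.contDiffOn
      exact contDiff_const.mul ((hD.comp contDiff_fst).inv fun p => (D_pos hp p.1).ne')
    · exact hphi.contDiffOn.rpow_const_of_ne fun p hpm => (show 0 < phi y p.1 p.2 from hpm).ne'
  refine h1.congr ?_
  intro p hpm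
  have hpm' : 0 < phi y p.1 p.2 := hpm
  unfold dens
  rw [max_eq_left hpm'.le]

theorem coord_continuous (j : Fin d) : Continuous (fun x : Space d => x j) := by
  fun_prop

theorem phi_continuous {y : Fin d → ℝ → ℝ} (t : ℝ) :
    Continuous (fun x : Space d => phi y t x) := by
  unfold phi
  fun_prop

theorem dens_continuous {K a : ℝ} (ha : 0 ≤ a) {y : Fin d → ℝ → ℝ} (t : ℝ) :
    Continuous (fun x : Space d => dens K a y t x) := by
  unfold dens
  apply Continuous.mul continuous_const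
  exact ((phi_continuous t).max continuous_const).rpow_const (fun x => Or.inr ha)

theorem vel_continuous {y w : Fin d → ℝ → ℝ} (t : ℝ) :
    Continuous (fun x : Space d => vel y w t x) := by
  unfold vel
  fun_prop

theorem norm_bound {y : Fin d → ℝ → ℝ} (hp : ∀ i t, 0 < y i t) {t : ℝ} {x : Space d}
    (hx : 0 < phi y t x) : ‖x‖ ≤ Real.sqrt (∑ j, y j t ^ 2) := by
  apply Real.le_sqrt_of_sq_le
  rw [EuclideanSpace.real_norm_sq_eq]
  apply Finset.sum_le_sum
  intro j _
  have h1 : (x j / y j t) ^ 2 ≤ ∑ i, (x i / y i t) ^ 2 :=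
    Finset.single_le_sum (f := fun i => (x i / y i t) ^ 2) (fun i _ => sq_nonneg _)
      (Finset.mem_univ j)
  unfold phi at hx
  have h2 : (x j / y j t) ^ 2 ≤ 1 := by linarith
  have h3 := hp j t
  rw [div_pow, div_le_one (by positivity)] at h2
  exact h2

theorem bounded_region {y : Fin d → ℝ → ℝ} (hp : ∀ i t, 0 < y i t) (t : ℝ) :
    Bornology.IsBounded {x : Space d | 0 < phi y t x} := by
  rw [isBounded_iff_forall_norm_le]
  exact ⟨_, fun x hx => norm_bound hp hx⟩

theorem dens_zero {K a : ℝ} (ha : 0 < a) {y : Fin d → ℝ → ℝ} {t : ℝ} {x : Space d}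
    (hx : ¬ 0 < phi y t x) : dens K a y t x = 0 := by
  unfold dens
  rw [max_eq_right (not_lt.1 hx), Real.zero_rpow ha.ne', mul_zero]

theorem integrable_of {f : Space d → ℝ} (hf : Continuous f) {S : Set (Space d)}
    (hS : Bornology.IsBounded S) (h0 : ∀ x, x ∉ S → f x = 0) : MeasureTheory.Integrable f := by
  apply hf.integrable_of_hasCompactSupport
  have hcomp : IsCompact (closure S) := hS.isCompact_closure
  apply HasCompactSupport.of_support_subset_isCompact hcomp
  intro x hx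
  apply subset_closure
  by_contra hn
  exact hx (h0 x hn)

theorem grad_phi (y : Fin d → ℝ → ℝ) (t : ℝ) (x : Space d) (i : Fin d) :
    grad (phi y) t x i = -(2 * x i / y i t ^ 2) := by
  show dx i (phi y) t x = _
  exact (phi_dx y t x i).deriv

theorem frontier_phi {y : Fin d → ℝ → ℝ} {t : ℝ} {x : Space d}
    (hx : x ∈ frontier {x : Space d | 0 < phi y t x}) : phi y t x = 0 := by
  have := frontier_lt_subset_eq (continuous_const (y := (0:ℝ))) (phi_continuous (y := y) t) hx
  exact (show (0:ℝ) = phi y t x from this).symm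

theorem grad_phi_ne {y : Fin d → ℝ → ℝ} (hp : ∀ i t, 0 < y i t) {t : ℝ} {x : Space d}
    (hx : phi y t x = 0) : grad (phi y) t x ≠ 0 := by
  intro h
  have hxi : ∀ i, x i = 0 := by
    intro i
    have h1 : grad (phi y) t x i = 0 := by rw [h]; rfl
    rw [grad_phi] at h1
    have := hp i t
    have h2 : 2 * x i / y i t ^ 2 = 0 := by linarith
    rw [div_eq_zero_iff] at h2
    rcases h2 with h2 | h2
    · linarith
    · exact absurd h2 (pow_pos this 2).ne'
  unfold phi at hx
  simp [hxi] at hx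

theorem kinematic {y w : Fin d → ℝ → ℝ} (hy : ∀ i t, HasDerivAt (y i) (w i t) t)
    (hp : ∀ i t, 0 < y i t) (t : ℝ) (x : Space d) :
    dt (phi y) t x / ‖grad (phi y) t x‖ = ∑ i, vel y w t x i * normal (phi y) t x i := by
  have e1 : dt (phi y) t x = _ := (phi_dt hy hp t x).deriv
  rw [e1, ← transport, Finset.sum_div]
  apply Finset.sum_congr rfl
  intro i _
  have e2 : normal (phi y) t x i = -(‖grad (phi y) t x‖⁻¹ * grad (phi y) t x i) := rfl
  rw [e2, grad_phi, vel_apply]
  ring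

theorem clip_lip {r s : ℝ} (hr : 0 ≤ r) (hs : 0 ≤ s) :
    |max (1 - r ^ 2) 0 - max (1 - s ^ 2) 0| ≤ 2 * |r - s| := by
  wlog h : r ≤ s generalizing r s
  · have := this hs hr (le_of_not_ge h)
    rwa [abs_sub_comm, abs_sub_comm r s]
  rw [abs_of_nonpos (show r - s ≤ 0 by linarith)]
  rcases le_total s 1 with h1 | h1
  · rw [max_eq_left (by nlinarith), max_eq_left (by nlinarith), abs_of_nonneg (by nlinarith)]
    nlinarith
  · rw [max_eq_right (show 1 - s ^ 2 ≤ 0 by nlinarith), sub_zero, abs_of_nonneg (le_max_right _ _)]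
    apply max_le
    · nlinarith
    · linarith

theorem phi_lip {y : Fin d → ℝ → ℝ} (hp : ∀ i t, 0 < y i t) (t : ℝ) :
    ∃ m : ℝ, 0 ≤ m ∧ ∀ x x' : Space d,
      |max (phi y t x) 0 - max (phi y t x') 0| ≤ m * ‖x - x'‖ := by
  let S : Space d → Space d := fun x => WithLp.toLp 2 (fun i => x i / y i t)
  have hS : ∀ x, phi y t x = 1 - ‖S x‖ ^ 2 := by
    intro x
    rw [EuclideanSpace.real_norm_sq_eq]
    rfl
  set m : ℝ := ∑ j, (y j t)⁻¹ with hm
  have hm0 : 0 ≤ m := Finset.sum_nonneg fun j _ => (inv_pos.2 (hp j t)).le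
  refine ⟨2 * m, by positivity, ?_⟩
  intro x x'
  rw [hS, hS]
  refine (clip_lip (norm_nonneg _) (norm_nonneg _)).trans ?_
  have h1 : |‖S x‖ - ‖S x'‖| ≤ ‖S x - S x'‖ := abs_norm_sub_norm_le _ _
  have h2 : ‖S x - S x'‖ ≤ m * ‖x - x'‖ := by
    apply le_of_sq_le_sq _ (by positivity)
    rw [mul_pow, EuclideanSpace.real_norm_sq_eq, EuclideanSpace.real_norm_sq_eq, Finset.mul_sum]
    apply Finset.sum_le_sum
    intro i _
    have e : (S x - S x') i = (y i t)⁻¹ * (x - x') i := by
      show x i / y i t - x' i / y i t = (y i t)⁻¹ * (x i - x' i)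
      ring
    rw [e, mul_pow]
    apply mul_le_mul_of_nonneg_right _ (sq_nonneg _)
    apply pow_le_pow_left₀ (inv_pos.2 (hp i t)).le
    exact Finset.single_le_sum (f := fun j => (y j t)⁻¹) (fun j _ => (inv_pos.2 (hp j t)).le)
      (Finset.mem_univ i)
  linarith

theorem phi_dir (y : Fin d → ℝ → ℝ) (t : ℝ) (x v : Space d) :
    HasDerivAt (fun h : ℝ => phi y t (x + h • v)) (∑ i, grad (phi y) t x i * v i) 0 := by
  unfold phi
  have h1 : HasDerivAt (fun h : ℝ => ∑ j, ((x + h • v) j / y j t) ^ 2)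
      (∑ j, 2 * (x j / y j t) * (v j / y j t)) 0 := by
    apply HasDerivAt.fun_sum
    intro j _
    have h2 : HasDerivAt (fun h : ℝ => (x + h • v) j) (v j) 0 := by
      have h3 : HasDerivAt (fun h : ℝ => x j + h * v j) (v j) 0 := by
        have := ((hasDerivAt_id (0:ℝ)).mul_const (v j)).const_add (x j)
        simpa using this
      exact h3
    have := ((h2.div_const (y j t)).fun_pow 2)
    simpa using this
  have h2 := h1.const_sub 1
  refine h2.congr_deriv ?_
  have hg : ∀ i, grad (fun t x => 1 - ∑ j, (x.ofLp j / y j t) ^ 2) t x i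
      = -(2 * x i / y i t ^ 2) := fun i => grad_phi y t x i
  rw [← Finset.sum_neg_distrib]
  apply Finset.sum_congr rfl
  intro i _
  rw [hg i]
  ring

theorem max_deriv {f : ℝ → ℝ} {m : ℝ} (hm : 0 < m) (hf : HasDerivAt f (-m) 0) (h0 : f 0 = 0) :
    HasDerivWithinAt (fun h => max (f h) 0) (-m) (Iic 0) 0 := by
  refine hf.hasDerivWithinAt.congr_of_eventuallyEq ?_ (by rw [h0, max_self])
  have h1 : ∀ᶠ h in 𝓝[≠] (0:ℝ), slope f 0 h < 0 := by
    have := (hasDerivAt_iff_tendsto_slope.1 hf)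
    exact this.eventually (gt_mem_nhds (by linarith))
  rw [eventually_nhdsWithin_iff] at h1
  apply Filter.eventually_iff_exists_mem.2 ?_ |>.mono (fun _ h => h)
  refine ⟨{h | h ≠ 0 → slope f 0 h < 0} ∩ Iic 0, ?_, ?_⟩
  · rw [inter_comm]
    exact inter_mem self_mem_nhdsWithin (mem_nhdsWithin_of_mem_nhds h1)
  · rintro h ⟨h2, h3⟩
    have h3' : h ≤ 0 := h3
    rcases h3'.eq_or_lt with h4 | h4
    · subst h4
      simp [h0]
    · have h5 : slope f 0 h < 0 := h2 h4.ne
      rw [slope_def_field, h0, sub_zero, sub_zero, div_neg_iff] at h5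
      rcases h5 with h5 | h5
      · exact max_eq_left h5.1.le
      · linarith


/-- the front acceleration -/
def acc (γ : ℝ) (y : Fin d → ℝ → ℝ) (t : ℝ) (x : Space d) : ℝ :=
  D y t ^ (1 - γ) / 2 * ‖grad (phi y) t x‖

theorem affine_isEternal {A γ κ : ℝ} (hA : 0 < A) (hγ : 1 < γ) (hκ : κ = (γ - 1) / (2 * A * γ))
    {y w : Fin d → ℝ → ℝ} (hy : ∀ i t, HasDerivAt (y i) (w i t) t)
    (hw : ∀ i t, HasDerivAt (w i) (D y t ^ (1 - γ) / y i t) t)
    (hp : ∀ i t, 0 < y i t) (hys : ∀ i, ContDiff ℝ ∞ (y i)) (hws : ∀ i, ContDiff ℝ ∞ (w i)) :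
    IsEternal A γ (affine (κ ^ (1 / (γ - 1))) (1 / (γ - 1)) y w) := by
  have hg0 : 0 < γ - 1 := by linarith
  have hκ0 : 0 < κ := by rw [hκ]; positivity
  have hK : 0 < κ ^ (1 / (γ - 1)) := Real.rpow_pos_of_pos hκ0 _
  have ha : 0 < 1 / (γ - 1) := by positivity
  have hpc : ∀ t, Continuous (fun x : Space d => A * dens (κ ^ (1 / (γ - 1))) (1 / (γ - 1)) y t x ^ γ) :=
    fun t => continuous_const.mul ((dens_continuous ha.le t).rpow_const
      (fun x => Or.inr (by linarith)))
  constructor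
  · exact fun t => isOpen_lt continuous_const (phi_continuous t)
  · intro t
    refine ⟨0, ?_⟩
    show 0 < phi y t 0
    unfold phi
    simp
  · exact fun t => bounded_region hp t
  · exact isOpen_domain' hys hp
  · intro t x hx
    have hx' : 0 < phi y t x := hx
    show 0 < dens _ _ y t x
    unfold dens
    rw [max_eq_left hx'.le]
    have := D_pos hp t
    have := Real.rpow_pos_of_pos hx' (1 / (γ - 1))
    positivity
  · intro t x hx
    exact dens_zero ha hx
  · intro t
    exact integrable_of (dens_continuous ha.le t) (bounded_region hp t)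
      (fun x hx => dens_zero ha hx)
  · intro t
    refine integrable_of (S := {x : Space d | 0 < phi y t x}) ?_ (bounded_region hp t) ?_
    · exact (((dens_continuous ha.le t).mul ((vel_continuous t).norm.pow 2)).div_const 2).add
        ((hpc t).div_const (γ - 1))
    · intro x hx
      have h0 : dens (κ ^ (1 / (γ - 1))) (1 / (γ - 1)) y t x = 0 := dens_zero ha hx
      show dens (κ ^ (1 / (γ - 1))) (1 / (γ - 1)) y t x * _ / 2
        + A * dens (κ ^ (1 / (γ - 1))) (1 / (γ - 1)) y t x ^ γ / (γ - 1) = 0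
      rw [h0, Real.zero_rpow (by linarith)]
      simp
  · exact dens_contDiffOn hys hp
  · exact ((vel_contDiff hys hws hp).of_le (by exact_mod_cast le_top)).contDiffOn
  · intro t x hx
    exact mass_identity hy hp hx
  · intro t x hx i
    exact momentum_identity hA hγ hκ hy hw hp hx i

theorem affine_isDefining {K a : ℝ} {y w : Fin d → ℝ → ℝ}
    (hp : ∀ i t, 0 < y i t) (hys : ∀ i, ContDiff ℝ ∞ (y i)) :
    IsDefining (affine K a y w) (phi y) := by
  refine ⟨phi_contDiff hys hp, fun t x => Iff.rfl, ?_⟩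
  intro t x hx
  exact grad_phi_ne hp (frontier_phi hx)

theorem affine_kinematic {K a : ℝ} {y w : Fin d → ℝ → ℝ}
    (hy : ∀ i t, HasDerivAt (y i) (w i t) t)
    (hp : ∀ i t, 0 < y i t) (hys : ∀ i, ContDiff ℝ ∞ (y i)) (hws : ∀ i, ContDiff ℝ ∞ (w i)) :
    HasKinematicFront (affine K a y w) (phi y) := by
  refine ⟨fun t x _ => (vel_contDiff hys hws hp).contDiffAt, fun t x _ => ?_⟩
  exact kinematic hy hp t x

theorem soundSq_eq {A γ κ : ℝ} (hA : 0 < A) (hγ : 1 < γ) (hκ : κ = (γ - 1) / (2 * A * γ))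
    {y w : Fin d → ℝ → ℝ} (hp : ∀ i t, 0 < y i t) (t : ℝ) (x : Space d) :
    soundSq A γ (affine (κ ^ (1 / (γ - 1))) (1 / (γ - 1)) y w) t x
      = (γ - 1) / 2 * D y t ^ (1 - γ) * max (phi y t x) 0 := by
  have hg0 : 0 < γ - 1 := by linarith
  have hκ0 : 0 < κ := by rw [hκ]; positivity
  show γ * A * dens (κ ^ (1 / (γ - 1))) (1 / (γ - 1)) y t x ^ (γ - 1) = _
  rw [dens_rpow hγ hκ0 hp, hκ]
  field_simp

theorem front_nonempty (hd : 0 < d) {y : Fin d → ℝ → ℝ} (hp : ∀ i t, 0 < y i t) (t : ℝ) :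
    (frontier {x : Space d | 0 < phi y t x}).Nonempty := by
  rw [nonempty_frontier_iff]
  constructor
  · refine ⟨0, ?_⟩
    show 0 < phi y t 0
    unfold phi
    simp
  · intro h
    have h1 : y ⟨0, hd⟩ t • EuclideanSpace.single ⟨0, hd⟩ (1:ℝ) ∈ {x : Space d | 0 < phi y t x} := by
      rw [h]; exact mem_univ _
    have h2 : 0 < phi y t (y ⟨0, hd⟩ t • EuclideanSpace.single ⟨0, hd⟩ (1:ℝ)) := h1
    unfold phi at h2
    have h3 : ((y ⟨0, hd⟩ t • EuclideanSpace.single ⟨0, hd⟩ (1:ℝ) : Space d) ⟨0, hd⟩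
        / y ⟨0, hd⟩ t) ^ 2 ≤ ∑ j, ((y ⟨0, hd⟩ t • EuclideanSpace.single ⟨0, hd⟩ (1:ℝ) : Space d) j
        / y j t) ^ 2 :=
      Finset.single_le_sum (f := fun j => ((y ⟨0, hd⟩ t • EuclideanSpace.single ⟨0, hd⟩ (1:ℝ) : Space d) j
        / y j t) ^ 2) (fun i _ => sq_nonneg _) (Finset.mem_univ _)
    have h4 : ((y ⟨0, hd⟩ t • EuclideanSpace.single ⟨0, hd⟩ (1:ℝ) : Space d) ⟨0, hd⟩
        / y ⟨0, hd⟩ t) ^ 2 = 1 := by
      have := (hp ⟨0, hd⟩ t).ne'
      simp [this]
    linarith

theorem affine_physical (hd : 0 < d) {A γ κ : ℝ} (hA : 0 < A) (hγ : 1 < γ) (hκ : κ = (γ - 1) / (2 * A * γ))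
    {y w : Fin d → ℝ → ℝ} (hy : ∀ i t, HasDerivAt (y i) (w i t) t)
    (hw : ∀ i t, HasDerivAt (w i) (D y t ^ (1 - γ) / y i t) t)
    (hp : ∀ i t, 0 < y i t) (hys : ∀ i, ContDiff ℝ ∞ (y i)) :
    HasPhysicalSingularity A γ (affine (κ ^ (1 / (γ - 1))) (1 / (γ - 1)) y w) (phi y)
      (acc γ y) := by
  have hg0 : 0 < γ - 1 := by linarith
  have hQ : ∀ t, 0 < D y t ^ (1 - γ) := fun t => Real.rpow_pos_of_pos (D_pos hp t) _
  constructor
  · intro t
    obtain ⟨m, hm, hlip⟩ := phi_lip hp t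
    refine ⟨Real.toNNReal ((γ - 1) / 2 * D y t ^ (1 - γ) * m), ?_⟩
    apply LipschitzWith.of_dist_le_mul
    intro x x'
    rw [Real.dist_eq, soundSq_eq hA hγ hκ hp, soundSq_eq hA hγ hκ hp, ← mul_sub, abs_mul,
      abs_of_pos (by have := hQ t; positivity), Real.coe_toNNReal _ (by have := hQ t; positivity),
      dist_eq_norm, mul_assoc ((γ - 1) / 2 * D y t ^ (1 - γ))]
    have := hQ t
    exact mul_le_mul_of_nonneg_left (hlip x x') (by positivity)
  · have h1 : (fun p : ℝ × Space d => soundSq A γ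
        (affine (κ ^ (1 / (γ - 1))) (1 / (γ - 1)) y w) p.1 p.2)
        = fun p => max ((γ - 1) / 2 * D y p.1 ^ (1 - γ) * phi y p.1 p.2) 0 := by
      funext p
      rw [soundSq_eq hA hγ hκ hp]
      have := hQ p.1
      rw [mul_max_of_nonneg _ _ (by positivity), mul_zero]
    rw [h1]
    apply LocallyLipschitz.max_const
    refine ContDiff.locallyLipschitz (𝕂 := ℝ) ?_
    have hD : ContDiff ℝ 1 (D y) := (D_contDiff hys).of_le (by exact_mod_cast le_top)
    have hphi : ContDiff ℝ 1 (fun p : ℝ × Space d => phi y p.1 p.2) :=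
      (phi_contDiff hys hp).of_le (by exact_mod_cast le_top)
    apply ContDiff.mul _ hphi
    apply ContDiff.mul contDiff_const
    exact (hD.comp contDiff_fst).rpow_const_of_ne (fun p => (D_pos hp p.1).ne')
  · intro t x hx
    have hx0 := frontier_phi hx
    have hne := grad_phi_ne hp hx0
    have hnorm : 0 < ‖grad (phi y) t x‖ := norm_pos_iff.2 hne
    have h1 := phi_dir y t x (normal (phi y) t x)
    have h2 : ∑ i, grad (phi y) t x i * normal (phi y) t x i = -‖grad (phi y) t x‖ := by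
      have e : ∀ i, grad (phi y) t x i * normal (phi y) t x i
          = -(‖grad (phi y) t x‖⁻¹ * grad (phi y) t x i ^ 2) := by
        intro i
        have : normal (phi y) t x i = -(‖grad (phi y) t x‖⁻¹ * grad (phi y) t x i) := rfl
        rw [this]; ring
      rw [Finset.sum_congr rfl (fun i _ => e i), Finset.sum_neg_distrib, ← Finset.mul_sum,
        ← EuclideanSpace.real_norm_sq_eq]
      field_simp
    rw [h2] at h1
    have h3 := max_deriv hnorm h1 (by simpa using hx0)
    have h4 := h3.const_mul ((γ - 1) / 2 * D y t ^ (1 - γ))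
    have h5 : (fun h : ℝ => soundSq A γ (affine (κ ^ (1 / (γ - 1))) (1 / (γ - 1)) y w) t
        (x + h • normal (phi y) t x))
        = fun h => (γ - 1) / 2 * D y t ^ (1 - γ) * max (phi y t (x + h • normal (phi y) t x)) 0 := by
      funext h
      exact soundSq_eq hA hγ hκ hp _ _
    rw [h5]
    refine h4.congr_deriv ?_
    unfold acc
    ring
  · exact fun t => front_nonempty hd hp t
  · intro t x hx
    have hnorm : 0 < ‖grad (phi y) t x‖ := norm_pos_iff.2 (grad_phi_ne hp (frontier_phi hx))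
    have := hQ t
    unfold acc
    positivity
  · intro t x hx i
    have hnorm : 0 < ‖grad (phi y) t x‖ := norm_pos_iff.2 (grad_phi_ne hp (frontier_phi hx))
    have e1 : dt (fun s z => vel y w s z i) t x = _ := (vel_dt (γ := γ) hy hw hp t x i).deriv
    have e2 : ∀ j, dx j (fun s z => vel y w s z i) t x = _ := fun j =>
      (vel_dx (w := w) t x i j).deriv
    have e3 : normal (phi y) t x i = -(‖grad (phi y) t x‖⁻¹ * grad (phi y) t x i) := rfl
    show dt (fun s z => vel y w s z i) t x + ∑ j, vel y w t x j * dx j (fun s z => vel y w s z i) t x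
      = acc γ y t x * normal (phi y) t x i
    rw [e1, Finset.sum_congr rfl (fun j _ => by rw [e2 j]), e3, grad_phi]
    have e4 : ∑ j, vel y w t x j * (w i t / y i t * (if i = j then (1:ℝ) else 0))
        = vel y w t x i * (w i t / y i t) := by
      have : ∀ j, vel y w t x j * (w i t / y i t * (if i = j then (1:ℝ) else 0))
          = if i = j then vel y w t x j * (w i t / y i t) else 0 := by
        intro j; split_ifs <;> ring
      rw [Finset.sum_congr rfl (fun j _ => this j), Finset.sum_ite_eq]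
      simp
    rw [e4, vel_apply]
    unfold acc
    have := (hp i t).ne'
    field_simp
    ring

/-! ### Asymptotic shapes -/

/-- diagonal map -/
def diag (q : Fin d → ℝ) (z : Space d) : Space d := WithLp.toLp 2 (fun i => q i * z i)

theorem diag_apply (q : Fin d → ℝ) (z : Space d) (i : Fin d) : diag q z i = q i * z i := rfl

theorem diag_continuous (q : Fin d → ℝ) : Continuous (diag q) := by
  unfold diag
  fun_prop

/-- (possibly degenerate) ellipsoid -/
def ellip (q : Fin d → ℝ) : Set (Space d) := diag q '' Metric.ball 0 1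

theorem diag_sub (q q' : Fin d → ℝ) (z : Space d) :
    ‖diag q z - diag q' z‖ ≤ (∑ i, |q i - q' i|) * ‖z‖ := by
  have hm : 0 ≤ ∑ i, |q i - q' i| := Finset.sum_nonneg fun i _ => abs_nonneg _
  apply le_of_sq_le_sq _ (by positivity)
  rw [mul_pow, EuclideanSpace.real_norm_sq_eq, EuclideanSpace.real_norm_sq_eq, Finset.mul_sum]
  apply Finset.sum_le_sum
  intro i _
  have e : (diag q z - diag q' z) i = (q i - q' i) * z i := by
    show q i * z i - q' i * z i = _
    ring
  rw [e, mul_pow, ← sq_abs (q i - q' i)]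
  apply mul_le_mul_of_nonneg_right _ (sq_nonneg _)
  apply pow_le_pow_left₀ (abs_nonneg _)
  exact Finset.single_le_sum (f := fun j => |q j - q' j|) (fun j _ => abs_nonneg _)
    (Finset.mem_univ i)

theorem ellip_hausdorff (q q' : Fin d → ℝ) :
    Metric.hausdorffEDist (closure (ellip q)) (closure (ellip q'))
      ≤ ENNReal.ofReal (∑ i, |q i - q' i|) := by
  rw [Metric.hausdorffEDist_closure]
  have hm : 0 ≤ ∑ i, |q i - q' i| := Finset.sum_nonneg fun i _ => abs_nonneg _
  apply Metric.hausdorffEDist_le_of_mem_edist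
  · rintro _ ⟨z, hz, rfl⟩
    refine ⟨diag q' z, ⟨z, hz, rfl⟩, ?_⟩
    rw [edist_dist, dist_eq_norm]
    apply ENNReal.ofReal_le_ofReal
    have h1 : ‖z‖ ≤ 1 := by
      have := mem_ball_zero_iff.1 hz
      exact this.le
    have h2 := diag_sub q q' z
    nlinarith
  · rintro _ ⟨z, hz, rfl⟩
    refine ⟨diag q z, ⟨z, hz, rfl⟩, ?_⟩
    rw [edist_dist, dist_eq_norm, norm_sub_rev]
    apply ENNReal.ofReal_le_ofReal
    have h1 : ‖z‖ ≤ 1 := by
      have := mem_ball_zero_iff.1 hz
      exact this.le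
    have h2 := diag_sub q q' z
    nlinarith

theorem rescaled_eq {K a : ℝ} {y w : Fin d → ℝ → ℝ} (hp : ∀ i t, 0 < y i t) (t : ℝ) :
    rescaled (affine K a y w) t = ellip (fun i => y i t / t) := by
  ext v
  constructor
  · rintro ⟨x, hx, rfl⟩
    have hx' : 0 < phi y t x := hx
    refine ⟨WithLp.toLp 2 (fun i => x i / y i t), ?_, ?_⟩
    · rw [mem_ball_zero_iff]
      have h1 : ‖(WithLp.toLp 2 (fun i => x i / y i t) : Space d)‖ ^ 2 < 1 := by
        rw [EuclideanSpace.real_norm_sq_eq]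
        unfold phi at hx'
        show ∑ i, (x i / y i t) ^ 2 < 1
        linarith
      have h2 := norm_nonneg (WithLp.toLp 2 (fun i => x i / y i t) : Space d)
      nlinarith
    · ext i
      show y i t / t * (x i / y i t) = t⁻¹ * x i
      have := (hp i t).ne'
      field_simp
  · rintro ⟨z, hz, rfl⟩
    refine ⟨WithLp.toLp 2 (fun i => y i t * z i), ?_, ?_⟩
    · show 0 < phi y t (WithLp.toLp 2 (fun i => y i t * z i))
      unfold phi
      have h1 : ∑ j, ((WithLp.toLp 2 (fun i => y i t * z i) : Space d) j / y j t) ^ 2 = ‖z‖ ^ 2 := by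
        rw [EuclideanSpace.real_norm_sq_eq]
        apply Finset.sum_congr rfl
        intro j _
        show (y j t * z j / y j t) ^ 2 = z j ^ 2
        have := (hp j t).ne'
        field_simp
      rw [h1]
      have h2 := mem_ball_zero_iff.1 hz
      have h3 := norm_nonneg z
      nlinarith
    · ext i
      show t⁻¹ * (y i t * z i) = y i t / t * z i
      ring

theorem behaves_of_tendsto {K a : ℝ} {y w : Fin d → ℝ → ℝ} (hp : ∀ i t, 0 < y i t)
    {l : Filter ℝ} {q : Fin d → ℝ} (hq : ∀ i, Tendsto (fun t => y i t / t) l (𝓝 (q i))) :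
    BehavesLike (affine K a y w) (ellip q) l := by
  unfold BehavesLike
  have h1 : Tendsto (fun t => ∑ i, |y i t / t - q i|) l (𝓝 0) := by
    have : Tendsto (fun t => ∑ i, |y i t / t - q i|) l (𝓝 (∑ i : Fin d, |q i - q i|)) := by
      apply tendsto_finsetSum
      intro i _
      exact ((hq i).sub_const (q i)).abs
    simpa using this
  have h2 : Tendsto (fun t => ENNReal.ofReal (∑ i, |y i t / t - q i|)) l (𝓝 0) := by
    have := ENNReal.tendsto_ofReal h1
    simpa using this
  refine tendsto_of_tendsto_of_tendsto_of_le_of_le tendsto_const_nhds h2 (fun t => bot_le) ?_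
  intro t
  simp only
  rw [rescaled_eq hp]
  exact ellip_hausdorff _ _

theorem ellip_bounded (q : Fin d → ℝ) : Bornology.IsBounded (ellip q) := by
  rw [isBounded_iff_forall_norm_le]
  refine ⟨∑ i, |q i|, ?_⟩
  rintro _ ⟨z, hz, rfl⟩
  have h := diag_sub q 0 z
  have h0 : diag (0 : Fin d → ℝ) z = 0 := by
    ext i; show (0:ℝ) * z i = 0; ring
  rw [h0, sub_zero] at h
  have h1 : ‖z‖ ≤ 1 := (mem_ball_zero_iff.1 hz).le
  have h2 : 0 ≤ ∑ i, |q i| := Finset.sum_nonneg fun i _ => abs_nonneg _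
  simp only [Pi.zero_apply, sub_zero] at h
  nlinarith

theorem closure_eq_of_behaves {F : Flow d} {O O' : Set (Space d)} {l : Filter ℝ} [l.NeBot]
    (h : BehavesLike F O l) (h' : BehavesLike F O' l) : closure O = closure O' := by
  have h1 : Tendsto (fun t => Metric.hausdorffEDist (closure O) (closure (rescaled F t))
      + Metric.hausdorffEDist (closure (rescaled F t)) (closure O')) l (𝓝 (0 + 0)) := by
    apply Tendsto.add _ h'
    unfold BehavesLike at h
    simpa [Metric.hausdorffEDist_comm] using h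
  rw [add_zero] at h1
  have h2 : Metric.hausdorffEDist (closure O) (closure O') ≤ 0 :=
    ge_of_tendsto' h1 (fun t => Metric.hausdorffEDist_triangle)
  have h3 := le_antisymm h2 bot_le
  have h4 := Metric.hausdorffEDist_zero_iff_closure_eq_closure.1 h3
  rwa [closure_closure, closure_closure] at h4

theorem no_common {F : Flow d} {p q : Fin d → ℝ} {i₀ : Fin d}
    (hp : BehavesLike F (ellip p) atTop) (hq : BehavesLike F (ellip q) atBot)
    (hlt : |q i₀| < p i₀) :
    ¬ ∃ O : Set (Space d), Bornology.IsBounded O ∧ BehavesLike F O atTop ∧ BehavesLike F O atBot := by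
  rintro ⟨O, -, h1, h2⟩
  have e : closure (ellip p) = closure (ellip q) :=
    (closure_eq_of_behaves hp h1).trans (closure_eq_of_behaves h2 hq)
  have hmem : diag p (EuclideanSpace.single i₀ (1:ℝ)) ∈ closure (ellip p) := by
    apply image_closure_subset_closure_image (diag_continuous p)
    refine ⟨_, ?_, rfl⟩
    rw [closure_ball _ one_ne_zero, mem_closedBall_zero_iff]
    simp
  rw [e] at hmem
  have hsub : closure (ellip q) ⊆ {x : Space d | x i₀ ≤ |q i₀|} := by
    apply closure_minimal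
    · rintro _ ⟨z, hz, rfl⟩
      show q i₀ * z i₀ ≤ |q i₀|
      have h1 : ‖z‖ ≤ 1 := (mem_ball_zero_iff.1 hz).le
      have h2 : |z i₀| ≤ ‖z‖ := by
        have := PiLp.norm_apply_le z i₀
        simpa using this
      calc q i₀ * z i₀ ≤ |q i₀ * z i₀| := le_abs_self _
        _ = |q i₀| * |z i₀| := abs_mul _ _
        _ ≤ |q i₀| * 1 := by gcongr; linarith
        _ = |q i₀| := mul_one _
    · exact isClosed_le (coord_continuous i₀) continuous_const
  have := hsub hmem
  have h3 : diag p (EuclideanSpace.single i₀ (1:ℝ)) i₀ ≤ |q i₀| := this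
  rw [diag_apply] at h3
  simp at h3
  linarith

theorem main (d : ℕ) (A γ : ℝ) (hd : 2 ≤ d) (hA : 0 < A) (hγ : 1 < γ) :
    ∃ (F : Flow d) (ψ g : ℝ → Space d → ℝ),
      IsEternal A γ F ∧ IsDefining F ψ ∧ HasKinematicFront F ψ ∧
      HasPhysicalSingularity A γ F ψ g ∧
      (∃ O₁ O₂ : Set (Space d), Bornology.IsBounded O₁ ∧ Bornology.IsBounded O₂ ∧
        BehavesLike F O₁ Filter.atTop ∧ BehavesLike F O₂ Filter.atBot) ∧
      ¬ ∃ O : Set (Space d), Bornology.IsBounded O ∧
        BehavesLike F O Filter.atTop ∧ BehavesLike F O Filter.atBot := by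
  obtain ⟨n, rfl⟩ : ∃ n, d = n + 2 := ⟨d - 2, by omega⟩
  obtain ⟨y, w, p, hy, hw, hp, hys, hws, hsym, hppos, hplt, hlim⟩ := exists_good_scales n hγ
  set κ : ℝ := (γ - 1) / (2 * A * γ) with hκ
  have htop := behaves_of_tendsto (K := κ ^ (1 / (γ - 1))) (a := 1 / (γ - 1)) (w := w) hp hlim
  have hlim' : ∀ i, Tendsto (fun t => y i t / t) atBot (𝓝 (-p (Equiv.swap 0 1 i))) := by
    intro i
    have h1 : Tendsto (fun t => y (Equiv.swap 0 1 i) (-t) / (-t)) atBot
        (𝓝 (p (Equiv.swap 0 1 i))) := (hlim (Equiv.swap 0 1 i)).comp tendsto_neg_atBot_atTop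
    have h2 := h1.neg
    refine h2.congr ?_
    intro t
    rw [hsym, Equiv.swap_apply_self]
    rw [div_neg, neg_neg]
  have hbot := behaves_of_tendsto (K := κ ^ (1 / (γ - 1))) (a := 1 / (γ - 1)) (w := w) hp hlim'
  refine ⟨affine (κ ^ (1 / (γ - 1))) (1 / (γ - 1)) y w, phi y, acc γ y,
    affine_isEternal hA hγ hκ hy hw hp hys hws, affine_isDefining hp hys,
    affine_kinematic hy hp hys hws, affine_physical (by omega) hA hγ hκ hy hw hp hys,
    ⟨_, _, ellip_bounded _, ellip_bounded _, htop, hbot⟩, ?_⟩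
  apply no_common htop hbot (i₀ := 0)
  rw [Equiv.swap_apply_left, abs_neg, abs_of_pos (hppos 1)]
  exact hplt

end Pool.Agent.Lib.MP_f907ca_an
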